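import Pool.Agent.Helper35.CP.M
set_option autoImplicit false

/-!
The restriction conjecture for the paraboloid in `ℝ^4`, in the whole conjectured range `q > 8 / 3`,
for the functions `1_K(ξ) exp(i φ(ξ))`, where `K` is the intersection of the cube `[-1,1]^3` with
`N` half spaces and the phase `φ` is either an arbitrary real polynomial of degree at most three in
three variables, or, in some orthonormal coordinates `ζ`, of the form
`p(ζ_0, ζ_1) + ζ_2 r(ζ_0, ζ_1) + ζ_2^2 c(ζ_0, ζ_1)` with arbitrary real polynomials `p`, `r`, `c` of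
degree at most `D`. The bound depends only on `q`, `D` and `N`, not on the coefficients: the
oscillation may be arbitrarily fast. The same holds for arbitrary superpositions of such functions.
-/

namespace Pool.Agent.Results.MP_b7167f_an.CubicPhases

open MeasureTheory Matrix
open scoped ENNReal NNReal

/-- the cube `[-1, 1]^n` -/
def cube (n : ℕ) : Set (Fin n → ℝ) := Set.Icc (fun _ => -1) (fun _ => 1)

/-- the extension operator of the paraboloid,
`E f (x, t) = ∫_{[-1,1]^n} f(ξ) exp(2 π i (ξ · x + |ξ|^2 t)) dξ` -/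
noncomputable def ext {n : ℕ} (f : (Fin n → ℝ) → ℂ) (y : (Fin n → ℝ) × ℝ) : ℂ :=
  ∫ ξ in cube n, f ξ *
    Complex.exp (2 * Real.pi * Complex.I * ((∑ j, ξ j * y.1 j + (∑ j, ξ j ^ 2) * y.2 : ℝ) : ℂ))

/-- the norm of `E f` in `L^q(ℝ^(n+1))` -/
noncomputable def extNorm {n : ℕ} (q : ℝ) (f : (Fin n → ℝ) → ℂ) : ℝ≥0∞ :=
  (∫⁻ y : (Fin n → ℝ) × ℝ, ‖ext f y‖ₑ ^ q) ^ (1 / q)

/-- the value of a polynomial in two variables -/
noncomputable def poly (P : MvPolynomial (Fin 2) ℝ) (x y : ℝ) : ℝ := MvPolynomial.eval ![x, y] P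

/-- real polynomials of degree at most three in three variables -/
def Cubic (φ : (Fin 3 → ℝ) → ℝ) : Prop :=
  ∃ P : MvPolynomial (Fin 3) ℝ, P.totalDegree ≤ 3 ∧ ∀ ξ, φ ξ = MvPolynomial.eval ξ P

/-- polynomials that are quadratic in one of the variables in some orthonormal coordinates
`ζ = V ξ`: `φ(ξ) = p(ζ_0, ζ_1) + ζ_2 r(ζ_0, ζ_1) + ζ_2^2 c(ζ_0, ζ_1)`, where `p`, `r`, `c` are real
polynomials of degree at most `D` in two variables -/
def QuadraticInOne (D : ℕ) (φ : (Fin 3 → ℝ) → ℝ) : Prop :=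
  ∃ (V : Matrix (Fin 3) (Fin 3) ℝ) (p r c : MvPolynomial (Fin 2) ℝ), Vᵀ * V = 1 ∧
    p.totalDegree ≤ D ∧ r.totalDegree ≤ D ∧ c.totalDegree ≤ D ∧
    ∀ ξ, φ ξ = poly p ((V *ᵥ ξ) 0) ((V *ᵥ ξ) 1) +
      (V *ᵥ ξ) 2 * poly r ((V *ᵥ ξ) 0) ((V *ᵥ ξ) 1) +
      (V *ᵥ ξ) 2 ^ 2 * poly c ((V *ᵥ ξ) 0) ((V *ᵥ ξ) 1)

/-- the intersection of `N` half spaces `A_l · ξ ≤ b_l` -/
def polyhedron {n N : ℕ} (A : Fin N → Fin n → ℝ) (b : Fin N → ℝ) : Set (Fin n → ℝ) :=
  {ξ | ∀ l, ∑ k, A l k * ξ k ≤ b l}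

lemma ext_eq {n : ℕ} (f : (Fin n → ℝ) → ℂ) (y : (Fin n → ℝ) × ℝ) :
    ext f y = Pool.Agent.Helper35.MP.EE ((cube n).indicator f) y.1 y.2 := by
  rw [Pool.Agent.Helper35.MP.EE_eq]
  unfold ext
  rw [← integral_indicator (show MeasurableSet (cube n) from measurableSet_Icc)]
  congr 1
  ext v
  by_cases h : v ∈ cube n
  · rw [Set.indicator_of_mem h, Set.indicator_of_mem h]
    congr 1
    unfold Pool.Agent.Y183.LS.ec Pool.Agent.Y183.LS.dt Pool.Agent.Y183.LS.sq2
    congr 3
    rw [mul_comm (∑ j, v j ^ 2) y.2]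
    congr 1
    exact Finset.sum_congr rfl fun j _ => mul_comm _ _
  · rw [Set.indicator_of_notMem h, Set.indicator_of_notMem h, zero_mul]

lemma norm_le {n : ℕ} {q : ℝ} (hq : 0 < q) {f : (Fin n → ℝ) → ℂ} {g : (Fin n → ℝ) → ℂ}
    (hg : Measurable g) (hfg : (cube n).indicator f = g) {X : ℝ≥0∞}
    (h : Pool.Agent.Helper35.MP.JJ q g ≤ X ^ q) : extNorm q f ≤ X := by
  unfold extNorm
  simp only [ext_eq, hfg]
  rw [← Pool.Agent.Helper35.MP.JJ_prod q hg]
  calc _ ≤ (X ^ q) ^ (1 / q) := ENNReal.rpow_le_rpow h (by positivity)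
    _ = X := by
      rw [← ENNReal.rpow_mul, mul_one_div_cancel hq.ne', ENNReal.rpow_one]

/-- both classes in the form used in the proof -/
lemma phase_form {D : ℕ} {φ : (Fin 3 → ℝ) → ℝ} (h : Cubic φ ∨ QuadraticInOne D φ) :
    ∃ (V : Matrix (Fin 3) (Fin 3) ℝ) (p r c : MvPolynomial (Fin 2) ℝ), Vᵀ * V = 1 ∧
      p.totalDegree ≤ D + 3 ∧ r.totalDegree ≤ D + 3 ∧ c.totalDegree ≤ D + 3 ∧
      φ = fun v => Pool.Agent.Helper35.CP.ph3 p r c (Pool.Agent.Helper35.CP.sp3 (V *ᵥ v)) := by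
  rcases h with ⟨P, hP, hφ⟩ | ⟨V, p, r, c, hV, hp, hr, hc, hφ⟩
  · obtain ⟨V, p, r, c, hV, hp, hr, hc, h⟩ := Pool.Agent.Helper35.CP.cubic_red P hP
    refine ⟨V, p, r, c, hV, hp.trans (by omega), hr.trans (by omega), hc.trans (by omega), ?_⟩
    ext ξ
    rw [hφ, h]
  · refine ⟨V, p, r, c, hV, hp.trans (by omega), hr.trans (by omega), hc.trans (by omega), ?_⟩
    ext ξ
    rw [hφ, Pool.Agent.Helper35.CP.sp3_apply]
    rfl

/-- Let `q > 8 / 3`. There is a constant `C`, depending only on `q`, the degree `D` and the number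
`N`, such that
(1) `‖E(1_K exp(i φ))‖_q ≤ C` for all real polynomials `φ` of degree at most three in three
variables and all `φ` of the type `QuadraticInOne D`, and for all intersections `K` of `N` half
spaces (with the cube, in the definition of `E`);
(2) `‖E f‖_q ≤ C ∫ |a(ω)| dμ(ω)` for all superpositions
`f(ξ) = ∫ a(ω) 1_{K(ω)}(ξ) exp(i φ(ω, ξ)) dμ(ω)`, where `a`, `φ` and the inequalities that define
`K(ω)` depend measurably on the parameter `ω`. -/
theorem result (q : ℝ) (hq : 8 / 3 < q) (D N : ℕ) :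
    ∃ C : ℝ≥0,
      (∀ φ : (Fin 3 → ℝ) → ℝ, (Cubic φ ∨ QuadraticInOne D φ) →
        ∀ (A : Fin N → Fin 3 → ℝ) (b : Fin N → ℝ),
          extNorm q (fun ξ => (polyhedron A b).indicator
            (fun ξ => Complex.exp (Complex.I * (φ ξ : ℂ))) ξ) ≤ C) ∧
      (∀ (Ω : Type) [MeasurableSpace Ω] (μ : Measure Ω) [SFinite μ] (a : Ω → ℂ)
        (φ : Ω → (Fin 3 → ℝ) → ℝ) (A : Ω → Fin N → Fin 3 → ℝ) (b : Ω → Fin N → ℝ),
        Measurable a → Measurable (Function.uncurry φ) → Measurable A → Measurable b →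
        (∀ ω, Cubic (φ ω) ∨ QuadraticInOne D (φ ω)) →
          extNorm q (fun ξ => ∫ ω, a ω * (polyhedron (A ω) (b ω)).indicator
            (fun ξ => Complex.exp (Complex.I * (φ ω ξ : ℂ))) ξ ∂μ) ≤ C * ∫⁻ ω, ‖a ω‖ₑ ∂μ) := by
  have hq1 : 1 < q := by linarith
  have hq0 : 0 < q := by linarith
  obtain ⟨C₀, hC₀⟩ := Pool.Agent.Helper35.CP.single3 (D + 3) N q hq
  set C : ℝ≥0 := C₀ + 1 with hC
  have hCq : (C₀ : ℝ≥0∞) ≤ (C : ℝ≥0∞) ^ q := by
    have h1 : (1 : ℝ≥0∞) ≤ C := by
      rw [hC]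
      push_cast
      exact le_add_self
    calc (C₀ : ℝ≥0∞) ≤ C := by
          rw [hC]
          push_cast
          exact le_self_add
      _ = (C : ℝ≥0∞) ^ (1 : ℝ) := (ENNReal.rpow_one _).symm
      _ ≤ _ := ENNReal.rpow_le_rpow_of_exponent_le h1 hq1.le
  have key : ∀ φ : (Fin 3 → ℝ) → ℝ, (Cubic φ ∨ QuadraticInOne D φ) →
      ∀ (A : Fin N → Fin 3 → ℝ) (b : Fin N → ℝ),
      Pool.Agent.Helper35.MP.JJ q ((Pool.Agent.Helper35.MP.cubeP A b).indicator
        (Pool.Agent.Helper35.MP.osc φ)) ≤ (C : ℝ≥0∞) ^ q := by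
    intro φ hφ A b
    obtain ⟨V, p, r, c, hV, hp, hr, hc, e⟩ := phase_form hφ
    have h := hC₀ V hV p r c hp hr hc A b
    rw [e]
    exact h.trans hCq
  have hosc : ∀ φ : (Fin 3 → ℝ) → ℝ, (fun ξ => Complex.exp (Complex.I * (φ ξ : ℂ))) =
      Pool.Agent.Helper35.MP.osc φ := by
    intro φ
    ext ξ
    unfold Pool.Agent.Helper35.MP.osc
    rw [mul_comm]
  have hmixm : ∀ φ : (Fin 3 → ℝ) → ℝ, (Cubic φ ∨ QuadraticInOne D φ) → Measurable φ := by
    intro φ hφ
    obtain ⟨V, p, r, c, hV, hp, hr, hc, e⟩ := phase_form hφ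
    rw [e]
    exact (Pool.Agent.Helper35.CP.ph3_cont p r c).measurable.comp
      (Pool.Agent.Helper35.CP.sp3.measurable.comp (Pool.Agent.Helper35.MP.mat_meas V))
  have hind : ∀ (A : Fin N → Fin 3 → ℝ) (b : Fin N → ℝ) (g : (Fin 3 → ℝ) → ℂ) (ξ),
      (cube 3).indicator (fun ξ => (polyhedron A b).indicator g ξ) ξ =
      (Pool.Agent.Helper35.MP.cubeP A b).indicator g ξ := by
    intro A b g ξ
    have := congrFun (Set.indicator_indicator (cube 3) (polyhedron A b) g) ξ
    exact this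
  refine ⟨C, ?_, ?_⟩
  · intro φ hφ A b
    refine norm_le hq0 (g := (Pool.Agent.Helper35.MP.cubeP A b).indicator
        (Pool.Agent.Helper35.MP.osc φ)) ?_ ?_ (key φ hφ A b)
    · have hmo : Measurable (Pool.Agent.Helper35.MP.osc φ) := by
        unfold Pool.Agent.Helper35.MP.osc
        have := hmixm φ hφ
        fun_prop
      apply hmo.indicator
      rw [Pool.Agent.Helper35.MP.cubeP_eq]
      exact Pool.Agent.Helper35.MP.Pg_meas _ _ _
    · ext ξ
      rw [hosc, hind]
  · intro Ω _ μ _ a φ A b ha hφm hA hb hφ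
    by_cases hat : ∫⁻ ω, ‖a ω‖ₑ ∂μ = ∞
    · by_cases hC0 : C = 0
      · rw [hC] at hC0
        simp at hC0
      · rw [hat, ENNReal.mul_top (by exact_mod_cast hC0)]
        exact le_top
    have hoscm : Measurable fun w : Ω × (Fin 3 → ℝ) =>
        Pool.Agent.Helper35.MP.osc (φ w.1) w.2 := by
      unfold Pool.Agent.Helper35.MP.osc
      have h2 : Measurable fun w : Ω × (Fin 3 → ℝ) => φ w.1 w.2 := hφm
      fun_prop
    have hS : MeasurableSet {w : Ω × (Fin 3 → ℝ) |
        w.2 ∈ Pool.Agent.Helper35.MP.cubeP (A w.1) (b w.1)} := by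
      have e : {w : Ω × (Fin 3 → ℝ) | w.2 ∈ Pool.Agent.Helper35.MP.cubeP (A w.1) (b w.1)} =
          (Prod.snd ⁻¹' (cube 3)) ∩
            ⋂ l : Fin N, {w | ∑ k, A w.1 l k * w.2 k ≤ b w.1 l} := by
        ext w
        simp only [Pool.Agent.Helper35.MP.cubeP, cube, Set.mem_inter_iff, Set.mem_preimage,
          Set.mem_iInter, Set.mem_ofPred_eq]
      rw [e]
      apply (measurable_snd measurableSet_Icc).inter
      apply MeasurableSet.iInter
      intro l
      apply measurableSet_le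
      · apply Finset.measurable_sum
        intro k _
        apply Measurable.mul
        · exact (measurable_pi_apply k).comp ((measurable_pi_apply l).comp (hA.comp measurable_fst))
        · exact (measurable_pi_apply k).comp measurable_snd
      · exact (measurable_pi_apply l).comp (hb.comp measurable_fst)
    set F : Ω × (Fin 3 → ℝ) → ℂ := fun w =>
      (Pool.Agent.Helper35.MP.cubeP (A w.1) (b w.1)).indicator
        (Pool.Agent.Helper35.MP.osc (φ w.1)) w.2 with hF
    have hFm : Measurable F := by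
      have e : F = {w : Ω × (Fin 3 → ℝ) |
          w.2 ∈ Pool.Agent.Helper35.MP.cubeP (A w.1) (b w.1)}.indicator
            fun w => Pool.Agent.Helper35.MP.osc (φ w.1) w.2 := by
        ext w
        simp only [hF]
        by_cases h : w.2 ∈ Pool.Agent.Helper35.MP.cubeP (A w.1) (b w.1)
        · rw [Set.indicator_of_mem h, Set.indicator_of_mem (show w ∈ {w : Ω × (Fin 3 → ℝ) |
            w.2 ∈ Pool.Agent.Helper35.MP.cubeP (A w.1) (b w.1)} from h)]
        · rw [Set.indicator_of_notMem h, Set.indicator_of_notMem (show w ∉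
            {w : Ω × (Fin 3 → ℝ) |
            w.2 ∈ Pool.Agent.Helper35.MP.cubeP (A w.1) (b w.1)} from h)]
      rw [e]
      exact hoscm.indicator hS
    have hcube : IntegrableOn (fun _ : Fin 3 → ℝ => (1 : ℝ)) (cube 3) :=
      integrableOn_const (Pool.Agent.Y183.LS.BA_fin 1).ne
    have hJ := Pool.Agent.Helper35.MP.JJ_super μ q hq1 a ha hat F hFm
      ((cube 3).indicator fun _ => (1 : ℝ))
      ((integrable_indicator_iff measurableSet_Icc).mpr hcube) (fun ω v => by
        simp only [hF]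
        by_cases h : v ∈ Pool.Agent.Helper35.MP.cubeP (A ω) (b ω)
        · rw [Set.indicator_of_mem h, Set.indicator_of_mem (show v ∈ cube 3 from h.1),
            Pool.Agent.Helper35.MP.osc_norm]
        · rw [Set.indicator_of_notMem h, norm_zero]
          exact Set.indicator_nonneg (fun _ _ => zero_le_one) _)
      ((C : ℝ≥0∞) ^ q) (fun ω => key (φ ω) (hφ ω) (A ω) (b ω))
    refine norm_le hq0 (g := fun v => ∫ ω, a ω * F (ω, v) ∂μ) ?_ ?_ ?_
    · apply StronglyMeasurable.measurable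
      apply StronglyMeasurable.integral_prod_right'
        (f := fun w : (Fin 3 → ℝ) × Ω => a w.2 * F (w.2, w.1))
      exact ((ha.comp measurable_snd).mul
        (hFm.comp (measurable_snd.prodMk measurable_fst))).stronglyMeasurable
    · ext ξ
      by_cases h : ξ ∈ cube 3
      · rw [Set.indicator_of_mem h]
        congr 1
        ext ω
        rw [hosc]
        congr 1
        simp only [hF]
        rw [← hind, Set.indicator_of_mem h]
      · rw [Set.indicator_of_notMem h]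
        have h0 : ∀ ω, F (ω, ξ) = 0 := by
          intro ω
          simp only [hF]
          exact Set.indicator_of_notMem (fun h' => h h'.1) _
        simp only [h0, mul_zero, integral_zero]
    · refine hJ.trans (le_of_eq ?_)
      rw [ENNReal.mul_rpow_of_nonneg _ _ hq0.le, mul_comm]

end Pool.Agent.Results.MP_b7167f_an.CubicPhases
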