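import Mathlib
import Pool.Agent.Helper25.CL.H
set_option autoImplicit false

/-!
# The restriction conjecture for functions which are regular along curved leaves

Let `n = d - 1 ≥ 2`, `a ∈ ℝ^n` with `∑ a_j ≠ 0` and `p ∈ ℝ^n`. The hypersurfaces
`∏ |ξ_j - p_j|^(a_j) = const` are the leaves of a foliation of `ℝ^n`, off the hyperplanes `ξ_j = p_j`;
each leaf is an orbit of the group of the dilations `ξ ↦ p + e^τ (ξ - p)`, `∑ a_j τ_j = 0`, where `e^τ`
acts on the coordinates. We consider functions which have `σ > (n-1)/(2n)` derivatives, in `L²` and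
up to a unimodular factor, along the leaves, and no regularity at all across the leaves. The
extension estimate for the paraboloid holds for them in the full conjectured range
`q > 2 + 2/n = 2d/(d-1)`.
-/

namespace Pool.Agent.Results.MP_b7167f_an.CurvedLeaves

open MeasureTheory Set Complex
open scoped ENNReal NNReal
open Pool.Agent.Helper25.CL

/-- The closed cube `[-1,1]^n`. -/
abbrev cube (n : ℕ) : Set (Fin n → ℝ) := Icc (fun _ : Fin n => (-1 : ℝ)) (fun _ => 1)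

/-- The extension operator of the truncated paraboloid in `ℝ^(n+1)`:
`Ef(x,t) = ∫_{[-1,1]^n} f(ξ) exp(2πi(ξ·x + |ξ|² t)) dξ`. -/
noncomputable def ext {n : ℕ} (f : (Fin n → ℝ) → ℂ) (y : (Fin n → ℝ) × ℝ) : ℂ :=
  ∫ ξ in cube n,
    f ξ * cexp (2 * Real.pi * I * ((∑ j, ξ j * y.1 j + (∑ j, ξ j ^ 2) * y.2 : ℝ) : ℂ))

/-- The point `p + e^τ (ξ - p)`, where `e^τ` acts on the coordinates. If `∑ a_j τ_j = 0`, then it lies
on the leaf of the foliation `∏ |ξ_j - p_j|^(a_j) = const` through `ξ`. -/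
noncomputable def flow {n : ℕ} (p τ ξ : Fin n → ℝ) : Fin n → ℝ :=
  fun j => p j + Real.exp (τ j) * (ξ j - p j)

/-- The measurable functions `f` on `ℝ^n` with `|f| ≤ 1`, `f = 0` off the cube `[-1,1]^n`, which have `σ`
derivatives along the leaves, in `L²` and up to unimodular factors `χ(τ)`:
`∫ |χ(τ) f(p + e^τ (ξ - p)) - f(ξ)|² dξ ≤ A |τ|^(2σ)` for all `τ` with `∑ a_j τ_j = 0`, `|τ| ≤ 1`
(`|τ|` is the maximum norm). -/
def Leafwise {n : ℕ} (a p : Fin n → ℝ) (σ : ℝ) (A : ℝ≥0) : Set ((Fin n → ℝ) → ℂ) :=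
  {f | Measurable f ∧ (∀ ξ, ‖f ξ‖ ≤ 1) ∧ (∀ ξ, ξ ∉ cube n → f ξ = 0) ∧
    ∃ χ : (Fin n → ℝ) → ℂ, Measurable χ ∧ (∀ τ, ‖χ τ‖ = 1) ∧
      ∀ τ : Fin n → ℝ, ∑ j, a j * τ j = 0 → ‖τ‖ ≤ 1 →
        ∫⁻ ξ, ‖χ τ * f (flow p τ ξ) - f ξ‖ₑ ^ 2 ≤ A * ENNReal.ofReal (‖τ‖ ^ (2 * σ))}

/-- The function `F(sgn(ξ - p), ∏ |ξ_j - p_j|^(a_j)) ∏ |ξ_j - p_j|^(i β_j)`. -/
noncomputable def mono {n : ℕ} (a p β : Fin n → ℝ) (F : (Fin n → SignType) → ℝ → ℂ)
    (ξ : Fin n → ℝ) : ℂ :=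
  F (fun j => SignType.sign (ξ j - p j)) (∏ j, |ξ j - p j| ^ a j) *
    cexp (((∑ j, β j * Real.log |ξ j - p j| : ℝ) : ℂ) * I)

/-- `|{ξ : dist(ξ, ∂S) ≤ r}| ≤ V r^(2σ)` for `0 < r ≤ 1`. -/
def Boundary {n : ℕ} (σ : ℝ) (V : ℝ≥0) (S : Set (Fin n → ℝ)) : Prop :=
  ∀ r : ℝ, 0 < r → r ≤ 1 →
    volume (Metric.cthickening r (frontier S)) ≤ V * ENNReal.ofReal (r ^ (2 * σ))

lemma ext_eq {n : ℕ} (f : (Fin n → ℝ) → ℂ) (y : (Fin n → ℝ) × ℝ) :
    ext f y = Pool.Agent.H153R4.ext0 (on n) ((cube n).indicator f) y := by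
  unfold ext Pool.Agent.H153R4.ext0
  rw [← integral_indicator measurableSet_Icc]
  congr 1
  ext ξ
  by_cases hξ : ξ ∈ cube n
  · rw [indicator_of_mem hξ, indicator_of_mem hξ]
    unfold Pool.Agent.H153R4.ph
    simp only [one_mul]
  · rw [indicator_of_notMem hξ, indicator_of_notMem hξ, zero_mul]

lemma sign_set (s : SignType) : MeasurableSet {x : ℝ | SignType.sign x = s} := by
  rcases s with _ | _ | _
  · have : {x : ℝ | SignType.sign x = SignType.zero} = {0} := by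
      ext x
      exact sign_eq_zero_iff
    rw [this]
    exact measurableSet_singleton 0
  · have : {x : ℝ | SignType.sign x = SignType.neg} = Iio 0 := by
      ext x
      exact sign_eq_neg_one_iff
    rw [this]
    exact measurableSet_Iio
  · have : {x : ℝ | SignType.sign x = SignType.pos} = Ioi 0 := by
      ext x
      exact sign_eq_one_iff
    rw [this]
    exact measurableSet_Ioi

lemma signs_set {n : ℕ} (p : Fin n → ℝ) (s : Fin n → SignType) :
    MeasurableSet {ξ : Fin n → ℝ | (fun j => SignType.sign (ξ j - p j)) = s} := by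
  have : {ξ : Fin n → ℝ | (fun j => SignType.sign (ξ j - p j)) = s} =
      ⋂ j, (fun ξ : Fin n → ℝ => ξ j - p j) ⁻¹' {x : ℝ | SignType.sign x = s j} := by
    ext ξ
    simp [funext_iff]
  rw [this]
  exact MeasurableSet.iInter fun j => ((measurable_pi_apply j).sub_const _) (sign_set (s j))

lemma mono_meas {n : ℕ} (a p β : Fin n → ℝ) {F : (Fin n → SignType) → ℝ → ℂ}
    (hF : ∀ s, Measurable (F s)) : Measurable (mono a p β F) := by
  have h1 : (fun ξ : Fin n → ℝ =>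
      F (fun j => SignType.sign (ξ j - p j)) (∏ j, |ξ j - p j| ^ a j)) =
      fun ξ => ∑ s : Fin n → SignType,
        {ξ : Fin n → ℝ | (fun j => SignType.sign (ξ j - p j)) = s}.indicator
        (fun ξ => F s (∏ j, |ξ j - p j| ^ a j)) ξ := by
    ext ξ
    rw [Finset.sum_eq_single (fun j => SignType.sign (ξ j - p j))]
    · rw [indicator_of_mem]
      rfl
    · intro s _ hs
      rw [indicator_of_notMem]
      intro h
      exact hs h.symm
    · intro h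
      exact absurd (Finset.mem_univ _) h
  have h2 : Measurable fun ξ : Fin n → ℝ =>
      F (fun j => SignType.sign (ξ j - p j)) (∏ j, |ξ j - p j| ^ a j) := by
    rw [h1]
    refine Finset.measurable_sum _ fun s _ => Measurable.indicator ?_ (signs_set p s)
    refine (hF s).comp ?_
    fun_prop
  unfold mono
  refine h2.mul ?_
  refine Complex.measurable_exp.comp ((Complex.measurable_ofReal.comp ?_).mul_const _)
  refine Finset.measurable_sum _ fun j _ => ?_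
  exact measurable_const.mul
    (Real.measurable_log.comp (((measurable_pi_apply j).sub_const _).abs))

lemma mono_bd {n : ℕ} (a p β : Fin n → ℝ) {F : (Fin n → SignType) → ℝ → ℂ}
    (hF : ∀ s x, ‖F s x‖ ≤ 1) (ξ : Fin n → ℝ) : ‖mono a p β F ξ‖ ≤ 1 := by
  unfold mono
  rw [norm_mul, Complex.norm_exp_ofReal_mul_I, mul_one]
  exact hF _ _

lemma mono_inv {n : ℕ} (a p β : Fin n → ℝ) (F : (Fin n → SignType) → ℝ → ℂ) (τ : Fin n → ℝ)
    (hτ : ∑ j, a j * τ j = 0) : ∀ᵐ ξ : Fin n → ℝ,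
      cexp (((-∑ j, β j * τ j : ℝ) : ℂ) * I) * mono a p β F (fl p τ ξ) = mono a p β F ξ := by
  have h0 : ∀ᵐ ξ : Fin n → ℝ, ∀ j, ξ j ≠ p j := by
    rw [ae_all_iff]
    intro j
    rw [ae_iff]
    simp only [ne_eq, not_not]
    exact Measure.pi_hyperplane (fun _ => (volume : Measure ℝ)) j (p j)
  filter_upwards [h0] with ξ hξ
  have h1 : ∀ j, fl p τ ξ j - p j = Real.exp (τ j) * (ξ j - p j) := by
    intro j
    simp only [fl]
    ring
  have h2 : ∀ j, ξ j - p j ≠ 0 := fun j => sub_ne_zero.2 (hξ j)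
  unfold mono
  simp only [h1]
  have e1 : (fun j => SignType.sign (Real.exp (τ j) * (ξ j - p j))) =
      fun j => SignType.sign (ξ j - p j) := by
    ext j
    rw [sign_mul, sign_pos (Real.exp_pos _), one_mul]
  have e2 : ∏ j, |Real.exp (τ j) * (ξ j - p j)| ^ a j = ∏ j, |ξ j - p j| ^ a j := by
    have h3 : ∀ j, |Real.exp (τ j) * (ξ j - p j)| ^ a j =
        Real.exp (a j * τ j) * |ξ j - p j| ^ a j := by
      intro j
      rw [abs_mul, Real.mul_rpow (abs_nonneg _) (abs_nonneg _), abs_of_pos (Real.exp_pos _),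
        ← Real.exp_mul, mul_comm (τ j)]
    simp only [h3]
    rw [Finset.prod_mul_distrib, ← Real.exp_sum, hτ, Real.exp_zero, one_mul]
  have e3 : ∑ j, β j * Real.log |Real.exp (τ j) * (ξ j - p j)| =
      ∑ j, β j * τ j + ∑ j, β j * Real.log |ξ j - p j| := by
    rw [← Finset.sum_add_distrib]
    refine Finset.sum_congr rfl fun j _ => ?_
    rw [abs_mul, abs_of_pos (Real.exp_pos _), Real.log_mul (Real.exp_pos _).ne'
      (abs_ne_zero.2 (h2 j)), Real.log_exp]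
    ring
  rw [e1, e2, e3]
  have e4 : cexp (((-∑ j, β j * τ j : ℝ) : ℂ) * I) *
      cexp (((∑ j, β j * τ j + ∑ j, β j * Real.log |ξ j - p j| : ℝ) : ℂ) * I) =
      cexp (((∑ j, β j * Real.log |ξ j - p j| : ℝ) : ℂ) * I) := by
    rw [← Complex.exp_add]
    congr 1
    push_cast
    ring
  rw [mul_left_comm, e4]

/-- **Functions which are regular along curved leaves.** Let `n = d - 1 ≥ 2`, `a ∈ ℝ^n` with
`∑ a_j ≠ 0`, `q > 2 + 2/n = 2d/(d-1)` and `P ≥ 0`. All constants `C` are uniform in `|p| ≤ P`.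

1. If `f` is bounded by one, is supported in the cube and has `σ > (n-1)/(2n)` derivatives along
   the leaves `∏ |ξ_j - p_j|^(a_j) = const`, up to unimodular factors and in `L²`, with constant `A`,
   then `∫ |Ef|^q ≤ C (1 + A)`. No regularity across the leaves is assumed.
2. If `S` is a measurable subset of the cube with `|{ξ : dist(ξ, ∂S) ≤ r}| ≤ V r^(2σ)` for
   `0 < r ≤ 1`, `σ > (n-1)/(2n)`, then
   `∫ |E(1_S h)|^q ≤ C (1 + V)`, `h(ξ) = F(sgn(ξ - p), ∏ |ξ_j - p_j|^(a_j)) ∏ |ξ_j - p_j|^(i β_j)`,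
   for all measurable `F` with `|F| ≤ 1` and all `β ∈ ℝ^n`.
3. In particular `∫ |Eh|^q ≤ C` for all these functions `h`. -/
theorem result (n : ℕ) (hn : 2 ≤ n) (a : Fin n → ℝ) (ha : ∑ j, a j ≠ 0) (q : ℝ)
    (hq : 2 + 2 / (n : ℝ) < q) (P : ℝ≥0) :
    (∀ σ : ℝ, ((n : ℝ) - 1) / (2 * n) < σ → ∃ C : ℝ≥0,
      ∀ p : Fin n → ℝ, (∀ j, |p j| ≤ P) → ∀ A : ℝ≥0, ∀ f ∈ Leafwise a p σ A,
        ∫⁻ y, ‖ext f y‖ₑ ^ q ≤ C * (1 + A)) ∧
    (∀ σ : ℝ, ((n : ℝ) - 1) / (2 * n) < σ → ∃ C : ℝ≥0,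
      ∀ p : Fin n → ℝ, (∀ j, |p j| ≤ P) → ∀ (β : Fin n → ℝ) (F : (Fin n → SignType) → ℝ → ℂ),
        (∀ s, Measurable (F s)) → (∀ s x, ‖F s x‖ ≤ 1) →
        ∀ (V : ℝ≥0) (S : Set (Fin n → ℝ)), MeasurableSet S → S ⊆ cube n → Boundary σ V S →
          ∫⁻ y, ‖ext (S.indicator (mono a p β F)) y‖ₑ ^ q ≤ C * (1 + V)) ∧
    (∃ C : ℝ≥0, ∀ p : Fin n → ℝ, (∀ j, |p j| ≤ P) →
      ∀ (β : Fin n → ℝ) (F : (Fin n → SignType) → ℝ → ℂ),
        (∀ s, Measurable (F s)) → (∀ s x, ‖F s x‖ ≤ 1) →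
          ∫⁻ y, ‖ext (mono a p β F) y‖ₑ ^ q ≤ C) := by
  obtain ⟨m, rfl⟩ : ∃ m, n = m + 1 := ⟨n - 1, by omega⟩
  have hm : 0 < m := by omega
  have hm0 : (0 : ℝ) < m := by exact_mod_cast hm
  have hcast : ((m + 1 : ℕ) : ℝ) = 1 + m := by push_cast; ring
  have hq' : 2 + 2 / (1 + (m : ℝ)) < q := by rwa [hcast] at hq
  have hσ' : ∀ σ : ℝ, (((m + 1 : ℕ) : ℝ) - 1) / (2 * ((m + 1 : ℕ) : ℝ)) < σ →
      (m : ℝ) / (2 * (1 + (m : ℝ))) < σ := by
    intro σ hσ
    rw [hcast] at hσ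
    simpa using hσ
  have part2 : ∀ σ : ℝ, (((m + 1 : ℕ) : ℝ) - 1) / (2 * ((m + 1 : ℕ) : ℝ)) < σ → ∃ C : ℝ≥0,
      ∀ p : Fin (m + 1) → ℝ, (∀ j, |p j| ≤ P) →
        ∀ (β : Fin (m + 1) → ℝ) (F : (Fin (m + 1) → SignType) → ℝ → ℂ),
        (∀ s, Measurable (F s)) → (∀ s x, ‖F s x‖ ≤ 1) →
        ∀ (V : ℝ≥0) (S : Set (Fin (m + 1) → ℝ)), MeasurableSet S → S ⊆ cube (m + 1) →
          Boundary σ V S →
          ∫⁻ y, ‖ext (S.indicator (mono a p β F)) y‖ₑ ^ q ≤ C * (1 + V) := by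
    intro σ hσ
    obtain ⟨C, hC, h⟩ := domain m hm q hq' a ha σ (hσ' σ hσ) P P.2
    refine ⟨C.toNNReal, fun p hp β F hF hF1 V S hSm hS hV => ?_⟩
    rw [ENNReal.coe_toNNReal hC.ne]
    have h1 := h p hp (fun τ => cexp (((-∑ j, β j * τ j : ℝ) : ℂ) * I)) (mono a p β F) S V
      ENNReal.coe_ne_top (by fun_prop) (fun τ => by rw [Complex.norm_exp_ofReal_mul_I])
      (mono_meas a p β hF) (mono_bd a p β hF1) (fun τ hτ => mono_inv a p β F τ hτ) hSm hS hV
    refine le_trans (le_of_eq ?_) h1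
    apply lintegral_congr
    intro y
    rw [ext_eq, indicator_indicator, inter_eq_right.2 hS]
  refine ⟨fun σ hσ => ?_, part2, ?_⟩
  · obtain ⟨C, hC, h⟩ := curved m hm q hq' a ha σ (hσ' σ hσ) P P.2
    refine ⟨C.toNNReal, fun p hp A f ⟨hfm, hf1, hf0, χ, hχm, hχ, hreg⟩ => ?_⟩
    rw [ENNReal.coe_toNNReal hC.ne]
    have hind : (cube (m + 1)).indicator f = f := by
      funext ξ
      by_cases hξ : ξ ∈ cube (m + 1)
      · rw [indicator_of_mem hξ]
      · rw [indicator_of_notMem hξ, hf0 ξ hξ]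
    have hB : Bd f 1 1 := by
      refine ⟨hfm, hf1, fun ξ ⟨j, hj⟩ => hf0 ξ fun hξ => ?_⟩
      have := abs_le.2 ⟨hξ.1 j, hξ.2 j⟩
      linarith
    have h1 := h p hp χ f A ENNReal.coe_ne_top hχm (fun τ => (hχ τ).le) hB hreg
    refine le_trans (le_of_eq ?_) h1
    apply lintegral_congr
    intro y
    rw [ext_eq, hind]
  · obtain ⟨C, h⟩ := part2 (1 / 2) (by
      rw [hcast, div_lt_div_iff₀ (by positivity) (by norm_num)]
      linarith)
    set V : ℝ≥0 := (ENNReal.ofReal (2 ^ (2 * (m + 1) + 1) * ((m + 1 : ℕ) : ℝ))).toNNReal with hV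
    refine ⟨C * (1 + V), fun p hp β F hF hF1 => ?_⟩
    have h1 := h p hp β F hF hF1 V (cube (m + 1)) measurableSet_Icc (Subset.refl _)
      (fun r hr0 hr1 => by
        have := cube_frontier (m + 1) (by omega) r hr0 hr1
        rw [hV, ENNReal.coe_toNNReal ENNReal.ofReal_ne_top]
        exact this)
    push_cast
    refine le_trans (le_of_eq ?_) h1
    apply lintegral_congr
    intro y
    rw [ext_eq, ext_eq, indicator_indicator, inter_self]

end Pool.Agent.Results.MP_b7167f_an.CurvedLeaves
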