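import Pool.Agent.Helper35.MP.X
set_option autoImplicit false

/-!
The restriction conjecture for the paraboloid in `ℝ^d`, `d = m + 3 ≥ 4`, in the whole conjectured
range `q > 2 d / (d - 1)`, for the functions `1_K(ξ) exp(i φ(ξ))`, where `K` is the intersection of
the cube `[-1,1]^(d-1)` with `N` half spaces and the phase `φ` is, in some orthonormal coordinates
`ζ = (ζ', ζ'')`, `ζ' ∈ ℝ^2`, `ζ'' ∈ ℝ^(d-3)`, of the form
`p(ζ') + ∑_j ζ''_j r_j(ζ') + ∑_j c_j (ζ''_j)^2` with arbitrary real polynomials `p`, `r_j` of degree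
at most `D` in two variables and arbitrary real numbers `c_j`. The bound depends only on `d`, `q`,
`D` and `N`, not on the coefficients: the oscillation may be arbitrarily fast. The same holds for
arbitrary superpositions of such functions, for instance for `1_K(ξ) g(ξ) exp(i φ(ξ))`, where `g` is
the Fourier transform of a finite measure.
-/

namespace Pool.Agent.Results.MP_b7167f_an.MixedPolynomialPhases

open MeasureTheory Matrix
open scoped ENNReal NNReal

/-- the cube `[-1, 1]^n` -/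
def cube (n : ℕ) : Set (Fin n → ℝ) := Set.Icc (fun _ => -1) (fun _ => 1)

/-- the extension operator of the paraboloid,
`E f (x, t) = ∫_{[-1,1]^n} f(ξ) exp(2 π i (ξ · x + |ξ|^2 t)) dξ` -/
noncomputable def ext {n : ℕ} (f : (Fin n → ℝ) → ℂ) (y : (Fin n → ℝ) × ℝ) : ℂ :=
  ∫ ξ in cube n, f ξ *
    Complex.exp (2 * Real.pi * Complex.I * ((∑ j, ξ j * y.1 j + (∑ j, ξ j ^ 2) * y.2 : ℝ) : ℂ))

/-- the norm of `E f` in `L^q(ℝ^(n+1))` -/
noncomputable def extNorm {n : ℕ} (q : ℝ) (f : (Fin n → ℝ) → ℂ) : ℝ≥0∞ :=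
  (∫⁻ y : (Fin n → ℝ) × ℝ, ‖ext f y‖ₑ ^ q) ^ (1 / q)

/-- the value of a polynomial in two variables -/
noncomputable def poly (P : MvPolynomial (Fin 2) ℝ) (x y : ℝ) : ℝ := MvPolynomial.eval ![x, y] P

/-- the phases: in the orthonormal coordinates `ζ = V ξ`,
`φ(ξ) = p(ζ_0, ζ_1) + ∑_j ζ_(j+2) r_j(ζ_0, ζ_1) + ∑_j c_j ζ_(j+2)^2`, where `p` and the `r_j` are real
polynomials of degree at most `D` in two variables and the `c_j` are real numbers -/
def Mixed {m : ℕ} (D : ℕ) (φ : (Fin (m + 2) → ℝ) → ℝ) : Prop :=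
  ∃ (V : Matrix (Fin (m + 2)) (Fin (m + 2)) ℝ) (p : MvPolynomial (Fin 2) ℝ)
    (r : Fin m → MvPolynomial (Fin 2) ℝ) (c : Fin m → ℝ), Vᵀ * V = 1 ∧ p.totalDegree ≤ D ∧
    (∀ j, (r j).totalDegree ≤ D) ∧ ∀ ξ, φ ξ = poly p ((V *ᵥ ξ) 0) ((V *ᵥ ξ) 1) +
      ∑ j : Fin m, (V *ᵥ ξ) j.succ.succ * poly (r j) ((V *ᵥ ξ) 0) ((V *ᵥ ξ) 1) +
      ∑ j : Fin m, c j * (V *ᵥ ξ) j.succ.succ ^ 2

/-- the intersection of `N` half spaces `A_l · ξ ≤ b_l` -/
def polyhedron {n N : ℕ} (A : Fin N → Fin n → ℝ) (b : Fin N → ℝ) : Set (Fin n → ℝ) :=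
  {ξ | ∀ l, ∑ k, A l k * ξ k ≤ b l}

lemma ext_eq {n : ℕ} (f : (Fin n → ℝ) → ℂ) (y : (Fin n → ℝ) × ℝ) :
    ext f y = Pool.Agent.Helper35.MP.EE ((cube n).indicator f) y.1 y.2 := by
  rw [Pool.Agent.Helper35.MP.EE_eq]
  unfold ext
  rw [← integral_indicator (show MeasurableSet (cube n) from measurableSet_Icc)]
  congr 1
  ext v
  by_cases h : v ∈ cube n
  · rw [Set.indicator_of_mem h, Set.indicator_of_mem h]
    congr 1
    unfold Pool.Agent.Y183.LS.ec Pool.Agent.Y183.LS.dt Pool.Agent.Y183.LS.sq2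
    congr 3
    rw [mul_comm (∑ j, v j ^ 2) y.2]
    congr 1
    exact Finset.sum_congr rfl fun j _ => mul_comm _ _
  · rw [Set.indicator_of_notMem h, Set.indicator_of_notMem h, zero_mul]

lemma norm_le {n : ℕ} {q : ℝ} (hq : 0 < q) {f : (Fin n → ℝ) → ℂ} {g : (Fin n → ℝ) → ℂ}
    (hg : Measurable g) (hfg : (cube n).indicator f = g) {X : ℝ≥0∞}
    (h : Pool.Agent.Helper35.MP.JJ q g ≤ X ^ q) : extNorm q f ≤ X := by
  unfold extNorm
  simp only [ext_eq, hfg]
  rw [← Pool.Agent.Helper35.MP.JJ_prod q hg]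
  calc _ ≤ (X ^ q) ^ (1 / q) := ENNReal.rpow_le_rpow h (by positivity)
    _ = X := by
      rw [← ENNReal.rpow_mul, mul_one_div_cancel hq.ne', ENNReal.rpow_one]

/-- Let `d = m + 3 ≥ 4`, `q > 2 d / (d - 1)`. There is a constant `C`, depending only on `d`, `q`, the
degree `D` and the number `N`, such that
(1) `‖E(1_K exp(i φ))‖_q ≤ C` for all phases `φ` of the type `Mixed D` and all intersections `K` of
`N` half spaces (with the cube, in the definition of `E`);
(2) `‖E f‖_q ≤ C ∫ |a(ω)| dμ(ω)` for all superpositions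
`f(ξ) = ∫ a(ω) 1_{K(ω)}(ξ) exp(i φ(ω, ξ)) dμ(ω)`, where `a`, `φ` and the inequalities that define
`K(ω)` depend measurably on the parameter `ω`. -/
theorem result (m : ℕ) (hm : 1 ≤ m) (q : ℝ) (hq : 2 * ((m : ℝ) + 3) / (m + 2) < q) (D N : ℕ) :
    ∃ C : ℝ≥0,
      (∀ φ : (Fin (m + 2) → ℝ) → ℝ, Mixed D φ →
        ∀ (A : Fin N → Fin (m + 2) → ℝ) (b : Fin N → ℝ),
          extNorm q (fun ξ => (polyhedron A b).indicator
            (fun ξ => Complex.exp (Complex.I * (φ ξ : ℂ))) ξ) ≤ C) ∧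
      (∀ (Ω : Type) [MeasurableSpace Ω] (μ : Measure Ω) [SFinite μ] (a : Ω → ℂ)
        (φ : Ω → (Fin (m + 2) → ℝ) → ℝ) (A : Ω → Fin N → Fin (m + 2) → ℝ) (b : Ω → Fin N → ℝ),
        Measurable a → Measurable (Function.uncurry φ) → Measurable A → Measurable b →
        (∀ ω, Mixed D (φ ω)) →
          extNorm q (fun ξ => ∫ ω, a ω * (polyhedron (A ω) (b ω)).indicator
            (fun ξ => Complex.exp (Complex.I * (φ ω ξ : ℂ))) ξ ∂μ) ≤ C * ∫⁻ ω, ‖a ω‖ₑ ∂μ) := by
  have hm0 : (0 : ℝ) < (m : ℝ) + 2 := by positivity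
  have hq' : 2 + 2 / ((m : ℝ) + 2) < q := by
    refine lt_of_eq_of_lt ?_ hq
    field_simp
    ring
  have hq1 : 1 < q := by
    have : 0 < 2 / ((m : ℝ) + 2) := by positivity
    linarith
  have hq0 : 0 < q := by linarith
  obtain ⟨C₀, hC₀⟩ := Pool.Agent.Helper35.MP.single hm D N q hq'
  set C : ℝ≥0 := C₀ + 1 with hC
  have hCq : (C₀ : ℝ≥0∞) ≤ (C : ℝ≥0∞) ^ q := by
    have h1 : (1 : ℝ≥0∞) ≤ C := by
      rw [hC]
      push_cast
      exact le_add_self
    calc (C₀ : ℝ≥0∞) ≤ C := by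
          rw [hC]
          push_cast
          exact le_self_add
      _ = (C : ℝ≥0∞) ^ (1 : ℝ) := (ENNReal.rpow_one _).symm
      _ ≤ _ := ENNReal.rpow_le_rpow_of_exponent_le h1 hq1.le
  have key : ∀ φ : (Fin (m + 2) → ℝ) → ℝ, Mixed D φ →
      ∀ (A : Fin N → Fin (m + 2) → ℝ) (b : Fin N → ℝ),
      Pool.Agent.Helper35.MP.JJ q ((Pool.Agent.Helper35.MP.cubeP A b).indicator
        (Pool.Agent.Helper35.MP.osc φ)) ≤ (C : ℝ≥0∞) ^ q := by
    rintro φ ⟨V, p, r, c, hV, hp, hr, hφ⟩ A b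
    have h := hC₀ V hV p r c hp hr A b
    have e : φ = fun v => Pool.Agent.Helper35.MP.phs p r c (Pool.Agent.Helper35.MP.spl m (V *ᵥ v)) := by
      ext v
      rw [hφ]
      rfl
    rw [e]
    exact h.trans hCq
  have hosc : ∀ φ : (Fin (m + 2) → ℝ) → ℝ, (fun ξ => Complex.exp (Complex.I * (φ ξ : ℂ))) =
      Pool.Agent.Helper35.MP.osc φ := by
    intro φ
    ext ξ
    unfold Pool.Agent.Helper35.MP.osc
    rw [mul_comm]
  have hmixm : ∀ φ : (Fin (m + 2) → ℝ) → ℝ, Mixed D φ → Measurable φ := by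
    rintro φ ⟨V, p, r, c, hV, hp, hr, hφ⟩
    have e : φ = fun v => Pool.Agent.Helper35.MP.phs p r c (Pool.Agent.Helper35.MP.spl m (V *ᵥ v)) := by
      ext v
      rw [hφ]
      rfl
    rw [e]
    exact (Pool.Agent.Helper35.MP.phs_cont p r c).measurable.comp
      ((Pool.Agent.Helper35.MP.spl m).measurable.comp (Pool.Agent.Helper35.MP.mat_meas V))
  have hind : ∀ (A : Fin N → Fin (m + 2) → ℝ) (b : Fin N → ℝ) (g : (Fin (m + 2) → ℝ) → ℂ) (ξ),
      (cube (m + 2)).indicator (fun ξ => (polyhedron A b).indicator g ξ) ξ =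
      (Pool.Agent.Helper35.MP.cubeP A b).indicator g ξ := by
    intro A b g ξ
    have := congrFun (Set.indicator_indicator (cube (m + 2)) (polyhedron A b) g) ξ
    exact this
  refine ⟨C, ?_, ?_⟩
  · intro φ hφ A b
    refine norm_le hq0 (g := (Pool.Agent.Helper35.MP.cubeP A b).indicator
        (Pool.Agent.Helper35.MP.osc φ)) ?_ ?_ (key φ hφ A b)
    · have hmo : Measurable (Pool.Agent.Helper35.MP.osc φ) := by
        unfold Pool.Agent.Helper35.MP.osc
        have := hmixm φ hφ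
        fun_prop
      apply hmo.indicator
      rw [Pool.Agent.Helper35.MP.cubeP_eq]
      exact Pool.Agent.Helper35.MP.Pg_meas _ _ _
    · ext ξ
      rw [hosc, hind]
  · intro Ω _ μ _ a φ A b ha hφm hA hb hφ
    by_cases hat : ∫⁻ ω, ‖a ω‖ₑ ∂μ = ∞
    · by_cases hC0 : C = 0
      · rw [hC] at hC0
        simp at hC0
      · rw [hat, ENNReal.mul_top (by exact_mod_cast hC0)]
        exact le_top
    have hoscm : Measurable fun w : Ω × (Fin (m + 2) → ℝ) =>
        Pool.Agent.Helper35.MP.osc (φ w.1) w.2 := by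
      unfold Pool.Agent.Helper35.MP.osc
      have h2 : Measurable fun w : Ω × (Fin (m + 2) → ℝ) => φ w.1 w.2 := hφm
      fun_prop
    have hS : MeasurableSet {w : Ω × (Fin (m + 2) → ℝ) |
        w.2 ∈ Pool.Agent.Helper35.MP.cubeP (A w.1) (b w.1)} := by
      have e : {w : Ω × (Fin (m + 2) → ℝ) | w.2 ∈ Pool.Agent.Helper35.MP.cubeP (A w.1) (b w.1)} =
          (Prod.snd ⁻¹' (cube (m + 2))) ∩
            ⋂ l : Fin N, {w | ∑ k, A w.1 l k * w.2 k ≤ b w.1 l} := by
        ext w
        simp only [Pool.Agent.Helper35.MP.cubeP, cube, Set.mem_inter_iff, Set.mem_preimage,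
          Set.mem_iInter, Set.mem_ofPred_eq]
      rw [e]
      apply (measurable_snd measurableSet_Icc).inter
      apply MeasurableSet.iInter
      intro l
      apply measurableSet_le
      · apply Finset.measurable_sum
        intro k _
        apply Measurable.mul
        · exact (measurable_pi_apply k).comp ((measurable_pi_apply l).comp (hA.comp measurable_fst))
        · exact (measurable_pi_apply k).comp measurable_snd
      · exact (measurable_pi_apply l).comp (hb.comp measurable_fst)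
    set F : Ω × (Fin (m + 2) → ℝ) → ℂ := fun w =>
      (Pool.Agent.Helper35.MP.cubeP (A w.1) (b w.1)).indicator
        (Pool.Agent.Helper35.MP.osc (φ w.1)) w.2 with hF
    have hFm : Measurable F := by
      have e : F = {w : Ω × (Fin (m + 2) → ℝ) |
          w.2 ∈ Pool.Agent.Helper35.MP.cubeP (A w.1) (b w.1)}.indicator
            fun w => Pool.Agent.Helper35.MP.osc (φ w.1) w.2 := by
        ext w
        simp only [hF]
        by_cases h : w.2 ∈ Pool.Agent.Helper35.MP.cubeP (A w.1) (b w.1)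
        · rw [Set.indicator_of_mem h, Set.indicator_of_mem (show w ∈ {w : Ω × (Fin (m + 2) → ℝ) |
            w.2 ∈ Pool.Agent.Helper35.MP.cubeP (A w.1) (b w.1)} from h)]
        · rw [Set.indicator_of_notMem h, Set.indicator_of_notMem (show w ∉
            {w : Ω × (Fin (m + 2) → ℝ) |
            w.2 ∈ Pool.Agent.Helper35.MP.cubeP (A w.1) (b w.1)} from h)]
      rw [e]
      exact hoscm.indicator hS
    have hcube : IntegrableOn (fun _ : Fin (m + 2) → ℝ => (1 : ℝ)) (cube (m + 2)) :=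
      integrableOn_const (Pool.Agent.Y183.LS.BA_fin 1).ne
    have hJ := Pool.Agent.Helper35.MP.JJ_super μ q hq1 a ha hat F hFm
      ((cube (m + 2)).indicator fun _ => (1 : ℝ))
      ((integrable_indicator_iff measurableSet_Icc).mpr hcube) (fun ω v => by
        simp only [hF]
        by_cases h : v ∈ Pool.Agent.Helper35.MP.cubeP (A ω) (b ω)
        · rw [Set.indicator_of_mem h, Set.indicator_of_mem (show v ∈ cube (m + 2) from h.1),
            Pool.Agent.Helper35.MP.osc_norm]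
        · rw [Set.indicator_of_notMem h, norm_zero]
          exact Set.indicator_nonneg (fun _ _ => zero_le_one) _)
      ((C : ℝ≥0∞) ^ q) (fun ω => key (φ ω) (hφ ω) (A ω) (b ω))
    refine norm_le hq0 (g := fun v => ∫ ω, a ω * F (ω, v) ∂μ) ?_ ?_ ?_
    · apply StronglyMeasurable.measurable
      apply StronglyMeasurable.integral_prod_right'
        (f := fun w : (Fin (m + 2) → ℝ) × Ω => a w.2 * F (w.2, w.1))
      exact ((ha.comp measurable_snd).mul
        (hFm.comp (measurable_snd.prodMk measurable_fst))).stronglyMeasurable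
    · ext ξ
      by_cases h : ξ ∈ cube (m + 2)
      · rw [Set.indicator_of_mem h]
        congr 1
        ext ω
        rw [hosc]
        congr 1
        simp only [hF]
        rw [← hind, Set.indicator_of_mem h]
      · rw [Set.indicator_of_notMem h]
        have h0 : ∀ ω, F (ω, ξ) = 0 := by
          intro ω
          simp only [hF]
          exact Set.indicator_of_notMem (fun h' => h h'.1) _
        simp only [h0, mul_zero, integral_zero]
    · refine hJ.trans (le_of_eq ?_)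
      rw [ENNReal.mul_rpow_of_nonneg _ _ hq0.le, mul_comm]

end Pool.Agent.Results.MP_b7167f_an.MixedPolynomialPhases
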