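import Mathlib
import Pool.Agent.Helper25.PV.F
set_option autoImplicit false

/-!
# The restriction conjecture for functions which are rough in several variables

Let `n = m + k = d - 1` and write `ξ = (u, v)`, `u ∈ [-1,1]^m`, `v ∈ [-1,1]^k`. We consider functions
`f(u,v)` whose slices `f(·,v)` belong to a given class `K` of functions on `[-1,1]^m`, bounded by one,
and which have `σ` derivatives in `v`, in the mean (in `L²`); no regularity in `u` is assumed.
The extension estimate in `ℝ^(n+1)` for all these functions is equivalent to the one for the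
functions `g(u)`, `g ∈ K`, constant in `v`, and to a local estimate for `K` in `ℝ^(m+1)`; it
follows in the full conjectured range from the conjecture in `ℝ^(m+1)` for `K`.
-/

namespace Pool.Agent.Results.MP_b7167f_an.SeveralRoughVariables

open MeasureTheory Set Complex
open scoped ENNReal NNReal
open Pool.Agent.Helper25.PV

/-- The closed cube `[-1,1]^n`. -/
abbrev cube (n : ℕ) : Set (Fin n → ℝ) := Icc (fun _ : Fin n => (-1 : ℝ)) (fun _ => 1)

/-- The extension operator of the truncated paraboloid in `ℝ^(n+1)`: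
`Ef(x,t) = ∫_{[-1,1]^n} f(ξ) exp(2πi(ξ·x + |ξ|² t)) dξ`. -/
noncomputable def ext {n : ℕ} (f : (Fin n → ℝ) → ℂ) (y : (Fin n → ℝ) × ℝ) : ℂ :=
  ∫ ξ in cube n,
    f ξ * cexp (2 * Real.pi * I * ((∑ j, ξ j * y.1 j + (∑ j, ξ j ^ 2) * y.2 : ℝ) : ℂ))

/-- The measurable functions on `ℝ^m` which are bounded by one on `[-1,1]^m`. -/
def Bounded (m : ℕ) : Set ((Fin m → ℝ) → ℂ) :=
  {g | Measurable g ∧ ∀ u ∈ cube m, ‖g u‖ ≤ 1}

/-- The class of the functions `M(a_1(u_1), …, a_m(u_m))`, where `M` is a multilinear form of norm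
at most one on a Hilbert space `H` and the `a_i` are measurable functions of one variable with
values in the unit ball of `H`. For `H = ℂ` these are the products `a_1(u_1) ⋯ a_m(u_m)`. -/
def Tensors (m : ℕ) : Set ((Fin m → ℝ) → ℂ) :=
  {g | ∃ (H : Type) (_ : NormedAddCommGroup H) (_ : InnerProductSpace ℂ H) (_ : CompleteSpace H)
    (M : ContinuousMultilinearMap ℂ (fun _ : Fin m => H) ℂ) (a : Fin m → ℝ → H),
    ‖M‖ ≤ 1 ∧ (∀ i, StronglyMeasurable (a i)) ∧ (∀ i s, ‖a i s‖ ≤ 1) ∧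
      ∀ u, g u = M (fun i => a i (u i))}

/-- The measurable functions `f(u,v)` of `(u,v) ∈ [-1,1]^m × [-1,1]^k` such that every slice `f(·,v)`
coincides on `[-1,1]^m` with an element of `K`, and such that, with the maximum norm,
`∫∫ |f(u,v+w) - f(u,v)|² du dv ≤ A |w|^(2σ)` for `|w| ≤ 1` (`v` and `v + w` run over `[-1,1]^k`). -/
def Sliced {m : ℕ} (K : Set ((Fin m → ℝ) → ℂ)) (k : ℕ) (σ : ℝ) (A : ℝ≥0) :
    Set ((Fin (m + k) → ℝ) → ℂ) :=
  {f | Measurable f ∧ (∀ v ∈ cube k, ∃ g ∈ K, ∀ u ∈ cube m, f (Fin.append u v) = g u) ∧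
    ∀ w : Fin k → ℝ, ‖w‖ ≤ 1 → ∫⁻ u in cube m, ∫⁻ v in {v | v ∈ cube k ∧ v + w ∈ cube k},
      ‖f (Fin.append u (v + w)) - f (Fin.append u v)‖ₑ ^ 2 ≤ A * ENNReal.ofReal (‖w‖ ^ (2 * σ))}

/-- `∫_{ℝ^(m+1)} |Eg|^q ≤ B` for all `g ∈ K`. -/
def Global {m : ℕ} (K : Set ((Fin m → ℝ) → ℂ)) (q : ℝ) : Prop :=
  ∃ B : ℝ≥0, ∀ g ∈ K, ∫⁻ y, ‖ext g y‖ₑ ^ q ≤ B

/-- `∫_{|t| ≤ T} ∫_{ℝ^m} |Eg(x,t)|^q dx dt ≤ B T^a` for all `g ∈ K` and `T ≥ 1`. -/
def Local {m : ℕ} (K : Set ((Fin m → ℝ) → ℂ)) (q a : ℝ) : Prop :=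
  ∃ B : ℝ≥0, ∀ g ∈ K, ∀ T : ℝ, 1 ≤ T →
    ∫⁻ t in Icc (-T) T, ∫⁻ x : Fin m → ℝ, ‖ext g (x, t)‖ₑ ^ q ≤ B * ENNReal.ofReal (T ^ a)

/-- `∫_{ℝ^(m+k+1)} |Ef|^q ≤ C (1 + A^(q/2))` for all `f(u,v)` with slices in `K` and `σ` derivatives
in `v`, with constant `A`. -/
def Holds {m : ℕ} (K : Set ((Fin m → ℝ) → ℂ)) (k : ℕ) (σ q : ℝ) : Prop :=
  ∃ C : ℝ≥0, ∀ (A : ℝ≥0), ∀ f ∈ Sliced K k σ A,
    ∫⁻ y, ‖ext f y‖ₑ ^ q ≤ C * (1 + (A : ℝ≥0∞) ^ (q / 2))

/-- `∫_{ℝ^(m+k+1)} |Ef|^q ≤ C` for all `f(u,v) = g(u)`, `g ∈ K`. -/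
def Constant {m : ℕ} (K : Set ((Fin m → ℝ) → ℂ)) (k : ℕ) (q : ℝ) : Prop :=
  ∃ C : ℝ≥0, ∀ g ∈ K, ∫⁻ y, ‖ext (fun ξ : Fin (m + k) → ℝ => g fun i => ξ (Fin.castAdd k i)) y‖ₑ ^ q
    ≤ C

/-! ### Translation -/

lemma ext_eq {n : ℕ} (f : (Fin n → ℝ) → ℂ) (z : (Fin n → ℝ) × ℝ) :
    ext f z = Pool.Agent.Q89.SM.X ((cube n).indicator f) z.2 z.1 := by
  unfold ext Pool.Agent.Q89.SM.X
  rw [← integral_indicator measurableSet_Icc]
  congr 1
  ext v
  by_cases hv : v ∈ cube n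
  · rw [indicator_of_mem hv, indicator_of_mem hv]
    congr 1
    unfold Pool.Agent.Q89.SM.em Pool.Agent.W771.MD.em Pool.Agent.W771.MD.qe
    rw [← Complex.exp_sum]
    congr 1
    rw [← Finset.mul_sum]
    congr 1
    push_cast
    rw [Finset.sum_add_distrib, Finset.sum_mul]
  · rw [indicator_of_notMem hv, indicator_of_notMem hv, zero_mul]

lemma int_eq {n : ℕ} (q : ℝ) (f : (Fin n → ℝ) → ℂ) (hm : Measurable f) :
    ∫⁻ y, ‖ext f y‖ₑ ^ q =
      ∫⁻ t, ∫⁻ x, ‖Pool.Agent.Q89.SM.X ((cube n).indicator f) t x‖ₑ ^ q := by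
  simp only [ext_eq f]
  have h1 : Measurable (fun z : (Fin n → ℝ) × ℝ =>
      ‖Pool.Agent.Q89.SM.X ((cube n).indicator f) z.2 z.1‖ₑ ^ q) :=
    ((Pool.Agent.Q89.SM.X_meas _ (hm.indicator measurableSet_Icc)).comp
      measurable_swap).enorm.pow_const q
  rw [Measure.volume_eq_prod, lintegral_prod_symm _ h1.aemeasurable]

lemma gs_append {m k : ℕ} (u : Fin m → ℝ) (v : Fin k → ℝ) :
    Pool.Agent.X146.RP.gs finSumFinEquiv (u, v) = Fin.append u v := by
  apply ext_gs finSumFinEquiv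
  · intro i
    rw [Pool.Agent.X146.RP.gs_inl, finSumFinEquiv_apply_left, Fin.append_left]
  · intro i
    rw [Pool.Agent.X146.RP.gs_inr, finSumFinEquiv_apply_right, Fin.append_right]

lemma bf {n : ℕ} {f : (Fin n → ℝ) → ℂ} (hf : f ∈ Bounded n) :
    Pool.Agent.Q89.SM.Bf ((cube n).indicator f) 1 1 := by
  refine ⟨hf.1.indicator measurableSet_Icc, fun x => ?_, fun x hx => indicator_of_notMem hx _⟩
  by_cases hx : x ∈ cube n
  · rw [indicator_of_mem hx]
    exact hf.2 x hx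
  · rw [indicator_of_notMem hx, norm_zero]
    exact zero_le_one

lemma sliced_bdd {m k : ℕ} {K : Set ((Fin m → ℝ) → ℂ)} (hK : K ⊆ Bounded m) {σ : ℝ} {A : ℝ≥0}
    {f : (Fin (m + k) → ℝ) → ℂ} (hf : f ∈ Sliced K k σ A) : f ∈ Bounded (m + k) := by
  refine ⟨hf.1, fun ξ hξ => ?_⟩
  have h1 : ξ = Fin.append (fun i => ξ (Fin.castAdd k i)) (fun i => ξ (Fin.natAdd m i)) := by
    rw [Fin.append_castAdd_natAdd]
  obtain ⟨g, hg, h⟩ := hf.2.1 (fun i => ξ (Fin.natAdd m i)) ⟨fun i => hξ.1 _, fun i => hξ.2 _⟩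
  rw [h1, h _ ⟨fun i => hξ.1 _, fun i => hξ.2 _⟩]
  exact (hK hg).2 _ ⟨fun i => hξ.1 _, fun i => hξ.2 _⟩

lemma Icc_eq (T : ℝ) : {t : ℝ | |t| ≤ T} = Icc (-T) T := by
  ext t
  simp only [mem_ofPred_eq, mem_Icc, abs_le]

/-- the principle -/
lemma part1 {m k : ℕ} (hn : 1 ≤ m + k) (K : Set ((Fin m → ℝ) → ℂ)) (hK : K ⊆ Bounded m)
    (q a σ : ℝ) (hq : 2 + 2 / ((m + k : ℕ) : ℝ) < q) (hqn : q < 2 + 4 / ((m + k : ℕ) : ℝ))
    (ha : a < k * (q - 2) / 2) (hσ0 : 0 < σ) (hσ : 4 - ((m + k : ℕ) : ℝ) * (q - 2) < 2 * σ * q)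
    (hL : Local K q a) : Holds K k σ q := by
  obtain ⟨A₀, hA₀⟩ := hL
  have hn0 : (0 : ℝ) < ((m + k : ℕ) : ℝ) := by exact_mod_cast hn
  have hq2 : 2 < q := lt_trans (by
    have : 0 < 2 / ((m + k : ℕ) : ℝ) := by positivity
    linarith) hq
  set σ' : ℝ := min σ (1 / 2) with hσ'
  have hσ'0 : 0 < σ' := lt_min hσ0 (by norm_num)
  have hσ'1 : 2 * σ' ≤ 1 := by
    have := min_le_right σ (1 / 2 : ℝ)
    linarith
  have hσ'q : 4 - ((m + k : ℕ) : ℝ) * (q - 2) < 2 * σ' * q := by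
    rcases min_choice σ (1 / 2 : ℝ) with h | h
    · rw [hσ', h]
      exact hσ
    · rw [hσ', h]
      have h1 : 2 < ((m + k : ℕ) : ℝ) * (q - 2) := by
        have := (div_lt_iff₀ hn0).1 (show 2 / ((m + k : ℕ) : ℝ) < q - 2 by linarith)
        linarith
      linarith
  obtain ⟨C, hC⟩ := principle m k (m + k) hn q a σ' hq2 hqn ha hσ'q A₀
  -- the constant
  set c : ℝ≥0 := 2 * k * 2 ^ k * 2 ^ m with hc
  refine ⟨C * (1 + 2 ^ (q / 2) * (1 + c ^ (q / 2))), fun A f hf => ?_⟩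
  have hfb := sliced_bdd hK hf
  rw [int_eq q f hfb.1]
  set F := (cube (m + k)).indicator f with hF
  have hFb : Pool.Agent.Q89.SM.Bf F 1 1 := bf hfb
  have h1 := hC finSumFinEquiv F (A + c) hFb ?_ ?_
  · refine h1.trans ?_
    rw [ENNReal.coe_mul, mul_assoc]
    gcongr
    have h2 : ((A + c : ℝ≥0) : ℝ≥0∞) ^ (q / 2) ≤
        2 ^ (q / 2) * ((A : ℝ≥0∞) ^ (q / 2) + (c : ℝ≥0∞) ^ (q / 2)) := by
      have hq0 : 0 ≤ q / 2 := by linarith
      rcases le_total A c with h | h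
      · calc ((A + c : ℝ≥0) : ℝ≥0∞) ^ (q / 2) ≤ ((2 : ℝ≥0∞) * c) ^ (q / 2) := by
              gcongr
              rw [two_mul]
              push_cast
              gcongr
          _ = 2 ^ (q / 2) * (c : ℝ≥0∞) ^ (q / 2) := ENNReal.mul_rpow_of_nonneg _ _ hq0
          _ ≤ _ := by
              gcongr
              exact le_add_self
      · calc ((A + c : ℝ≥0) : ℝ≥0∞) ^ (q / 2) ≤ ((2 : ℝ≥0∞) * A) ^ (q / 2) := by
              gcongr
              rw [two_mul]
              push_cast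
              gcongr
          _ = 2 ^ (q / 2) * (A : ℝ≥0∞) ^ (q / 2) := ENNReal.mul_rpow_of_nonneg _ _ hq0
          _ ≤ _ := by
              gcongr
              exact le_self_add
    calc 1 + ((A + c : ℝ≥0) : ℝ≥0∞) ^ (q / 2) ≤
        1 + 2 ^ (q / 2) * ((A : ℝ≥0∞) ^ (q / 2) + (c : ℝ≥0∞) ^ (q / 2)) := by gcongr
      _ ≤ (1 + 2 ^ (q / 2) * (1 + (c : ℝ≥0∞) ^ (q / 2))) * (1 + (A : ℝ≥0∞) ^ (q / 2)) := by
          have e1 : (1 + 2 ^ (q / 2) * (1 + (c : ℝ≥0∞) ^ (q / 2))) * (1 + (A : ℝ≥0∞) ^ (q / 2)) =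
              (1 + 2 ^ (q / 2) * ((A : ℝ≥0∞) ^ (q / 2) + (c : ℝ≥0∞) ^ (q / 2))) +
              (2 ^ (q / 2) + (A : ℝ≥0∞) ^ (q / 2) +
                2 ^ (q / 2) * (c : ℝ≥0∞) ^ (q / 2) * (A : ℝ≥0∞) ^ (q / 2)) := by ring
          rw [e1]
          exact le_self_add
      _ = _ := by
          push_cast
          rw [ENNReal.coe_rpow_of_nonneg _ (by linarith), ENNReal.coe_rpow_of_nonneg _ (by linarith)]
          push_cast
          rfl
  · intro v T hT
    by_cases hv : v ∈ cube k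
    · obtain ⟨g, hg, h⟩ := hf.2.1 v hv
      have h2 : sl finSumFinEquiv F v = (cube m).indicator g := by
        funext u
        unfold sl
        by_cases hu : u ∈ cube m
        · rw [hF, indicator_of_mem ((gs_BA finSumFinEquiv 1 (u, v)).2 ⟨hu, hv⟩),
            indicator_of_mem hu, gs_append, h u hu]
        · rw [hF, indicator_of_notMem fun h' => hu ((gs_BA finSumFinEquiv 1 (u, v)).1 h').1,
            indicator_of_notMem hu]
      rw [h2, Icc_eq]
      refine le_trans (le_of_eq ?_) (hA₀ g hg T hT)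
      simp only [ext_eq]
    · have h2 : ∀ t x, Pool.Agent.Q89.SM.X (sl finSumFinEquiv F v) t x = 0 := fun t x =>
        sl_zero finSumFinEquiv hFb v hv t x
      simp only [h2]
      simp [show 0 < q by linarith]
  · intro w hw
    have h3 := reg_ext finSumFinEquiv f A σ σ' hfb.1 hfb.2 (min_le_left _ _) hσ'1 (fun w hw => by
      simp only [gs_append]
      exact hf.2.2 w hw) w hw
    refine h3.trans (le_of_eq ?_)
    push_cast
    rfl

/-- increasing the exponent -/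
lemma up {n : ℕ} {f : (Fin n → ℝ) → ℂ} (hf : f ∈ Bounded n) (q q' : ℝ) (hq' : 0 < q')
    (hq : q' ≤ q) (t : ℝ) (x : Fin n → ℝ) :
    ‖ext f (x, t)‖ₑ ^ q ≤ ENNReal.ofReal (2 ^ n) ^ (q - q') * ‖ext f (x, t)‖ₑ ^ q' := by
  rw [ext_eq]
  exact Bf.up (bf hf) q q' hq' hq t x

lemma up_int {n : ℕ} {f : (Fin n → ℝ) → ℂ} (hf : f ∈ Bounded n) (q q' : ℝ) (hq' : 0 < q')
    (hq : q' ≤ q) : ∫⁻ y, ‖ext f y‖ₑ ^ q ≤
      ENNReal.ofReal (2 ^ n) ^ (q - q') * ∫⁻ y, ‖ext f y‖ₑ ^ q' := by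
  rw [← lintegral_const_mul' _ _
    (ENNReal.rpow_ne_top_of_nonneg (by linarith) ENNReal.ofReal_ne_top)]
  exact lintegral_mono fun y => up hf q q' hq' hq y.2 y.1

lemma Holds.mono {m k : ℕ} {K : Set ((Fin m → ℝ) → ℂ)} (hK : K ⊆ Bounded m) {σ q q' : ℝ}
    (hq' : 0 < q') (hq : q' ≤ q) (h : Holds K k σ q') : Holds K k σ q := by
  obtain ⟨C, hC⟩ := h
  have hf' : ENNReal.ofReal (2 ^ (m + k)) ^ (q - q') ≠ ∞ :=
    ENNReal.rpow_ne_top_of_nonneg (by linarith) ENNReal.ofReal_ne_top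
  refine ⟨(ENNReal.ofReal (2 ^ (m + k)) ^ (q - q')).toNNReal * C * 2, fun A f hf => ?_⟩
  refine (up_int (sliced_bdd hK hf) q q' hq' hq).trans ?_
  push_cast
  rw [ENNReal.coe_toNNReal hf', mul_assoc, mul_assoc]
  gcongr
  refine (hC A f hf).trans ?_
  gcongr
  have h1 : (A : ℝ≥0∞) ^ (q' / 2) ≤ 1 + (A : ℝ≥0∞) ^ (q / 2) := by
    rcases le_total (A : ℝ≥0∞) 1 with h | h
    · exact (ENNReal.rpow_le_one h (by linarith)).trans le_self_add
    · exact (ENNReal.rpow_le_rpow_of_exponent_le h (by linarith)).trans le_add_self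
  calc 1 + (A : ℝ≥0∞) ^ (q' / 2) ≤ 1 + (1 + (A : ℝ≥0∞) ^ (q / 2)) := by gcongr
    _ ≤ 1 + (1 + (A : ℝ≥0∞) ^ (q / 2)) + (A : ℝ≥0∞) ^ (q / 2) := le_self_add
    _ = 2 * (1 + (A : ℝ≥0∞) ^ (q / 2)) := by ring

/-- the exponents beyond the one of Tomas and Stein -/
lemma big {m k : ℕ} (hn : 1 ≤ m + k) (K : Set ((Fin m → ℝ) → ℂ)) (hK : K ⊆ Bounded m)
    (σ q : ℝ) (hq : 2 + 4 / ((m + k : ℕ) : ℝ) < q) : Holds K k σ q := by
  have hn0 : (0 : ℝ) < ((m + k : ℕ) : ℝ) := by exact_mod_cast hn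
  obtain ⟨A₀, hA₀⟩ := Pool.Agent.X146.RP.ts_bdd (m + k) hn q (by
    refine lt_of_eq_of_lt ?_ hq
    field_simp
    ring)
  refine ⟨A₀, fun A f hf => ?_⟩
  have hfb := sliced_bdd hK hf
  have h1 := hA₀ _ (bf hfb).ms (bf hfb).bd
  refine le_trans (le_of_eq ?_) (h1.trans ?_)
  · apply lintegral_congr
    intro y
    congr 2
    unfold ext Pool.Agent.TH277.HT.EE
    apply setIntegral_congr_fun measurableSet_Icc
    intro ξ hξ
    simp only
    rw [indicator_of_mem hξ, mul_comm]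
    congr 1
  · calc (A₀ : ℝ≥0∞) = A₀ * 1 := (mul_one _).symm
      _ ≤ _ := by
        gcongr
        exact le_self_add

/-- from the principle to all exponents -/
lemma all {m k : ℕ} (hn : 1 ≤ m + k) {K : Set ((Fin m → ℝ) → ℂ)} (hK : K ⊆ Bounded m)
    (q₀ σ : ℝ) (hq₀ : 0 < q₀)
    (h : ∀ q, q₀ < q → q < 2 + 4 / ((m + k : ℕ) : ℝ) → Holds K k σ q) (q : ℝ) (hq : q₀ < q) :
    Holds K k σ q := by
  rcases lt_or_ge (2 + 4 / ((m + k : ℕ) : ℝ)) q with h1 | h1
  · exact big hn K hK σ q h1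
  · -- an exponent in between
    refine Holds.mono hK (q' := (q₀ + q) / 2) (by linarith) (by linarith) ?_
    exact h _ (by linarith) (by linarith)

lemma mem_const {m k : ℕ} {K : Set ((Fin m → ℝ) → ℂ)} (hK : K ⊆ Bounded m) (σ : ℝ)
    {g : (Fin m → ℝ) → ℂ} (hg : g ∈ K) :
    (fun ξ : Fin (m + k) → ℝ => g fun i => ξ (Fin.castAdd k i)) ∈ Sliced K k σ 0 := by
  refine ⟨(hK hg).1.comp (measurable_pi_lambda _ fun i => measurable_pi_apply _), fun v hv => ?_,
    fun w hw => ?_⟩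
  · refine ⟨g, hg, fun u hu => ?_⟩
    simp only [Fin.append_left]
  · simp only [Fin.append_left, sub_self, enorm_zero]
    simp

lemma const_of_holds {m k : ℕ} {K : Set ((Fin m → ℝ) → ℂ)} (hK : K ⊆ Bounded m) {σ q : ℝ}
    (hq : 0 < q) (h : Holds K k σ q) : Constant K k q := by
  obtain ⟨C, hC⟩ := h
  refine ⟨C, fun g hg => ?_⟩
  refine (hC 0 _ (mem_const hK σ hg)).trans (le_of_eq ?_)
  rw [ENNReal.coe_zero, ENNReal.zero_rpow_of_pos (by linarith), add_zero, mul_one]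

lemma local_of_const {m k : ℕ} {K : Set ((Fin m → ℝ) → ℂ)} (hK : K ⊆ Bounded m) {q : ℝ}
    (hq : 2 < q) (h : Constant K k q) : Local K q (k * (q - 2) / 2) := by
  obtain ⟨C, hC⟩ := h
  obtain ⟨B, hB⟩ := converse m k (m + k) q hq C
  refine ⟨B, fun g hg T hT => ?_⟩
  have h1 := hB finSumFinEquiv ((cube m).indicator g) (bf (hK hg)) ?_ T hT
  · rw [Icc_eq] at h1
    refine le_trans (le_of_eq ?_) h1
    simp only [ext_eq]
  · refine le_trans (le_of_eq ?_) (hC g hg)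
    rw [int_eq q _ (mem_const (k := k) hK 0 hg).1]
    apply lintegral_congr
    intro t
    apply lintegral_congr
    intro y
    congr 3
    have h2 : ∀ u v, tn finSumFinEquiv ((cube m).indicator g) (Fin.append u v) =
        (cube (m + k)).indicator (fun ξ : Fin (m + k) → ℝ => g fun i => ξ (Fin.castAdd k i))
          (Fin.append u v) := by
      intro u v
      rw [← gs_append, tn_gs]
      by_cases hu : u ∈ cube m
      · by_cases hv : v ∈ cube k
        · rw [indicator_of_mem hu, indicator_of_mem ((gs_BA finSumFinEquiv 1 (u, v)).2 ⟨hu, hv⟩),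
            gs_append]
          unfold bx
          rw [indicator_of_mem hv, mul_one]
          simp only [Fin.append_left]
        · rw [indicator_of_notMem fun h' => hv ((gs_BA finSumFinEquiv 1 (u, v)).1 h').2]
          unfold bx
          rw [indicator_of_notMem hv, mul_zero]
      · rw [indicator_of_notMem hu,
          indicator_of_notMem fun h' => hu ((gs_BA finSumFinEquiv 1 (u, v)).1 h').1, zero_mul]
    funext ξ
    have h3 : ξ = Fin.append (fun i => ξ (Fin.castAdd k i)) (fun i => ξ (Fin.natAdd m i)) := by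
      rw [Fin.append_castAdd_natAdd]
    rw [h3]
    exact h2 _ _

lemma Local.mono {m : ℕ} {K : Set ((Fin m → ℝ) → ℂ)} (hK : K ⊆ Bounded m) {q q' a : ℝ}
    (hq' : 0 < q') (hq : q' ≤ q) (h : Local K q' a) : Local K q a := by
  obtain ⟨B, hB⟩ := h
  have hf' : ENNReal.ofReal (2 ^ m) ^ (q - q') ≠ ∞ :=
    ENNReal.rpow_ne_top_of_nonneg (by linarith) ENNReal.ofReal_ne_top
  refine ⟨(ENNReal.ofReal (2 ^ m) ^ (q - q')).toNNReal * B, fun g hg T hT => ?_⟩
  push_cast
  rw [ENNReal.coe_toNNReal hf', mul_assoc]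
  refine le_trans ?_ (mul_le_mul_right (hB g hg T hT) _)
  rw [← lintegral_const_mul' _ _ hf']
  apply lintegral_mono
  intro t
  simp only
  rw [← lintegral_const_mul' _ _ hf']
  exact lintegral_mono fun x => up (hK hg) q q' hq' hq t x

lemma int_swap {m : ℕ} (q : ℝ) (g : (Fin m → ℝ) → ℂ) (hg : Measurable g) :
    ∫⁻ y, ‖ext g y‖ₑ ^ q = ∫⁻ t, ∫⁻ x, ‖ext g (x, t)‖ₑ ^ q := by
  rw [int_eq q g hg]
  simp only [ext_eq]

lemma local_of_global {m : ℕ} {K : Set ((Fin m → ℝ) → ℂ)} (hK : K ⊆ Bounded m) {q p : ℝ}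
    (hq : 2 < q) (hp : 2 < p) (h : Global K p) :
    Local K q (max 0 ((p - q) / (p - 2))) := by
  obtain ⟨B₀, hB₀⟩ := h
  rcases lt_or_ge q p with hqp | hqp
  · obtain ⟨B, hB⟩ := loc_of_glob m q p hq hqp B₀
    rw [max_eq_right (div_nonneg (by linarith) (by linarith))]
    refine ⟨B, fun g hg T hT => ?_⟩
    have h1 := hB _ (bf (hK hg)) (by
      rw [← int_eq p g (hK hg).1]
      exact hB₀ g hg) T hT
    rw [Icc_eq] at h1
    refine le_trans (le_of_eq ?_) h1
    simp only [ext_eq]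
  · have h0 : Local K p 0 := by
      refine ⟨B₀, fun g hg T hT => ?_⟩
      rw [Real.rpow_zero, ENNReal.ofReal_one, mul_one]
      refine (setLIntegral_le_lintegral _ _).trans ?_
      rw [← int_swap p g (hK hg).1]
      exact hB₀ g hg
    rw [max_eq_left (div_nonpos_of_nonpos_of_nonneg (by linarith) (by linarith))]
    exact h0.mono hK (by linarith) hqp

/-- the regularity suffices -/
lemma reg {n : ℕ} (hn : 1 ≤ n) {q σ : ℝ} (hq : 2 + 2 / (n : ℝ) < q)
    (hσ : (n : ℝ) / (2 * (n + 1)) < σ) : 4 - (n : ℝ) * (q - 2) < 2 * σ * q := by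
  have hn0 : (0 : ℝ) < n := by exact_mod_cast hn
  have h1 : 2 < (n : ℝ) * (q - 2) := by
    have := (div_lt_iff₀ hn0).1 (show 2 / (n : ℝ) < q - 2 by linarith)
    linarith
  have h2 : (n : ℝ) < σ * (2 * (n + 1)) := (div_lt_iff₀ (by positivity)).1 hσ
  have hσ0 : 0 < σ := lt_trans (by positivity) hσ
  have h3 : (2 : ℝ) * (n + 1) < n * q := by linarith
  have h4 : σ * (2 * (n + 1)) < σ * (n * q) := mul_lt_mul_of_pos_left h3 hσ0
  have h5 : (n : ℝ) * 1 < n * (σ * q) := by nlinarith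
  have h6 : 1 < σ * q := lt_of_mul_lt_mul_left h5 hn0.le
  linarith

/-- from the conjecture in the lower dimension -/
lemma full {m k : ℕ} (hm : 1 ≤ m) (hk : 1 ≤ k) {K : Set ((Fin m → ℝ) → ℂ)} (hK : K ⊆ Bounded m)
    (h : ∀ p : ℝ, 2 + 2 / (m : ℝ) < p → Global K p) (q σ : ℝ)
    (hq : 2 + 2 / ((m + k : ℕ) : ℝ) < q)
    (hσ : ((m + k : ℕ) : ℝ) / (2 * (((m + k : ℕ) : ℝ) + 1)) < σ) : Holds K k σ q := by
  have hn : 1 ≤ m + k := by omega
  have hn0 : (0 : ℝ) < ((m + k : ℕ) : ℝ) := by exact_mod_cast hn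
  have hm0 : (0 : ℝ) < m := by exact_mod_cast hm
  have hk0 : (0 : ℝ) < k := by exact_mod_cast hk
  have hnk : ((m + k : ℕ) : ℝ) = m + k := by push_cast; ring
  have hσ0 : 0 < σ := lt_trans (by positivity) hσ
  refine all hn hK (2 + 2 / ((m + k : ℕ) : ℝ)) σ (by positivity) ?_ q hq
  intro q hq hq4
  have h1 : 2 < (m + k : ℝ) * (q - 2) := by
    have := (div_lt_iff₀ hn0).1 (show 2 / ((m + k : ℕ) : ℝ) < q - 2 by linarith)
    rw [hnk] at this
    linarith
  have hq2 : 2 < q := by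
    by_contra hc
    nlinarith
  -- the exponent in the lower dimension
  set ε : ℝ := ((m + k : ℝ) * (q - 2) - 2) / (2 * m) with hε
  have hε0 : 0 < ε := div_pos (by linarith) (by positivity)
  set p : ℝ := 2 + 2 / (m : ℝ) + ε with hp
  have hp2 : 2 < p := by
    have : 0 < 2 / (m : ℝ) := by positivity
    linarith
  have hL := local_of_global hK hq2 hp2 (h p (by linarith))
  refine part1 hn K hK q _ σ hq hq4 ?_ hσ0 (reg hn hq hσ) hL
  apply max_lt
  · have : 0 < q - 2 := by linarith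
    positivity
  · rw [div_lt_iff₀ (by linarith)]
    have e1 : p - 2 = 2 / m + ε := by rw [hp]; ring
    have e2 : p - q = 2 / m + ε - (q - 2) := by rw [hp]; ring
    have e3 : (m : ℝ) * (2 / m) = 2 := by field_simp
    have e4 : 2 * (m * ε) = (m + k : ℝ) * (q - 2) - 2 := by
      rw [hε]
      field_simp
    rw [e1, e2]
    have h5 : 0 < k * (q - 2) * (m * ε) := by
      have : 0 < q - 2 := by linarith
      positivity
    have h6 : (m : ℝ) * (2 / m + ε - (q - 2)) < m * (k * (q - 2) / 2 * (2 / m + ε)) := by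
      have e5 : (m : ℝ) * (2 / m + ε - (q - 2)) = 2 + m * ε - m * (q - 2) := by
        rw [mul_sub, mul_add, e3]
      have e6 : (m : ℝ) * (k * (q - 2) / 2 * (2 / m + ε)) =
          k * (q - 2) / 2 * (m * (2 / m) + m * ε) := by ring
      rw [e3] at e6
      rw [e5, e6]
      nlinarith
    exact lt_of_mul_lt_mul_left h6 hm0.le

/-- the products -/
lemma tensors_bdd (m : ℕ) : Tensors m ⊆ Bounded m := by
  rintro g ⟨H, _, _, _, M, a, hM, ha, hb, h⟩
  have hs : Pool.Agent.TH277.HT.Sch m g := ⟨H, inferInstance, inferInstance, inferInstance, M, a,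
    hM, fun j => ⟨ha j, hb j⟩, h⟩
  refine ⟨hs.meas.measurable, fun u _ => ?_⟩
  rw [h u]
  refine (M.le_opNorm _).trans ?_
  refine mul_le_one₀ hM (Finset.prod_nonneg fun i _ => norm_nonneg _) ?_
  exact Finset.prod_le_one (fun i _ => norm_nonneg _) fun i _ => hb i _

lemma tensors_global (m : ℕ) (hm : 2 ≤ m) (p : ℝ) (hp : 2 + 2 / (m : ℝ) < p) :
    Global (Tensors m) p := by
  have hm0 : (0 : ℝ) < m := by
    have : (2 : ℝ) ≤ m := by exact_mod_cast hm
    linarith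
  obtain ⟨C, hC⟩ := Pool.Agent.TH277.HT.main m hm p (by
    refine lt_of_eq_of_lt ?_ hp
    field_simp) 0
  refine ⟨C, ?_⟩
  rintro g ⟨H, _, _, _, M, a, hM, ha, hb, h⟩
  have hs : Pool.Agent.TH277.HT.Sch m g := ⟨H, inferInstance, inferInstance, inferInstance, M, a,
    hM, fun j => ⟨ha j, hb j⟩, h⟩
  have h1 := hC Fin.elim0 Fin.elim0 (fun p => p.elim0) (fun p => p.elim0) (fun p => p.elim0)
    (fun p => p.elim0) (fun p => p.elim0) g hs
  refine le_trans (le_of_eq ?_) h1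
  apply lintegral_congr
  intro y
  congr 2
  unfold ext Pool.Agent.TH277.HT.EE
  apply setIntegral_congr_fun measurableSet_Icc
  intro ξ hξ
  simp only [Finset.univ_eq_empty, Finset.prod_empty, mul_one]
  rw [mul_comm]
  congr 1

/-- **Functions which are rough in several variables.** Let `m, k ≥ 1`, `n = m + k = d - 1`. The
class `K` is an arbitrary set of measurable functions on `[-1,1]^m`, bounded by one.

1. (Equivalence) Let `q₀ ≥ 2 + 2/n` and `σ > n/(2(n+1))`. In the range `q > q₀` the following are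
   equivalent: the estimate in `ℝ^(n+1)` for all `f(u,v)` with slices in `K` and `σ` derivatives in
   `v`; the estimate in `ℝ^(n+1)` for the functions `g(u)`, `g ∈ K`, constant in `v`; the local
   estimate in `ℝ^(m+1)` for `K` with the exponent `a = k(q-2)/2`.
2. (Transfer) The estimate `∫ |Eg|^p ≤ B`, `g ∈ K`, in `ℝ^(m+1)` for one `p > 2` implies the estimate
   in `ℝ^(n+1)` for all `f(u,v)` with slices in `K` and `σ` derivatives in `v`, provided that
   `p - q < k(q-2)(p-2)/2`, `2 + 2/n < q < 2 + 4/n` and `4 - n(q-2) < 2σq`.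
3. (Full range) If `K` satisfies the conjecture in `ℝ^(m+1)`, then the functions with slices in `K`
   and `σ > n/(2(n+1))` derivatives in `v` satisfy the conjecture in `ℝ^(n+1)`.
4. (Arbitrary slices) For all bounded functions with `σ > k/(m+2k+2)` derivatives in `v`, without
   any regularity in the `m` variables `u`, the estimate holds for `q > 2 + 4/(m+2k)`.
5. (Tensors) If `m ≥ 2` and the slices `f(·,v)` are products of bounded functions of one variable,
   or multilinear forms of functions of one variable with values in a Hilbert space, depending on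
   `v` in an arbitrary way but such that `f` has `σ > n/(2(n+1))` derivatives in `v`, then the
   estimate holds in the full conjectured range `q > 2 + 2/n = 2d/(d-1)`. -/
theorem result (m k : ℕ) (hm : 1 ≤ m) (hk : 1 ≤ k) :
    (∀ K ⊆ Bounded m, ∀ q₀ σ : ℝ, 2 + 2 / ((m + k : ℕ) : ℝ) ≤ q₀ →
      ((m + k : ℕ) : ℝ) / (2 * (((m + k : ℕ) : ℝ) + 1)) < σ →
      ((∀ q, q₀ < q → Holds K k σ q) ↔ ∀ q, q₀ < q → Constant K k q) ∧
      ((∀ q, q₀ < q → Holds K k σ q) ↔ ∀ q, q₀ < q → Local K q (k * (q - 2) / 2))) ∧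
    (∀ K ⊆ Bounded m, ∀ p q σ : ℝ, 2 < p → p - q < k * (q - 2) * (p - 2) / 2 →
      2 + 2 / ((m + k : ℕ) : ℝ) < q → q < 2 + 4 / ((m + k : ℕ) : ℝ) → 0 < σ →
      4 - ((m + k : ℕ) : ℝ) * (q - 2) < 2 * σ * q → Global K p → Holds K k σ q) ∧
    (∀ K ⊆ Bounded m, (∀ p : ℝ, 2 + 2 / (m : ℝ) < p → Global K p) → ∀ q σ : ℝ,
      2 + 2 / ((m + k : ℕ) : ℝ) < q → ((m + k : ℕ) : ℝ) / (2 * (((m + k : ℕ) : ℝ) + 1)) < σ →
      Holds K k σ q) ∧
    (∀ q σ : ℝ, 2 + 4 / ((m : ℝ) + 2 * k) < q → (k : ℝ) / (m + 2 * k + 2) < σ →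
      Holds (Bounded m) k σ q) ∧
    (2 ≤ m → ∀ q σ : ℝ, 2 + 2 / ((m + k : ℕ) : ℝ) < q →
      ((m + k : ℕ) : ℝ) / (2 * (((m + k : ℕ) : ℝ) + 1)) < σ → Holds (Tensors m) k σ q) := by
  have hn : 1 ≤ m + k := by omega
  have hn0 : (0 : ℝ) < ((m + k : ℕ) : ℝ) := by exact_mod_cast hn
  have hm0 : (0 : ℝ) < m := by exact_mod_cast hm
  have hk0 : (0 : ℝ) < k := by exact_mod_cast hk
  have hnk : ((m + k : ℕ) : ℝ) = m + k := by push_cast; ring
  have hcrit : 2 < 2 + 2 / ((m + k : ℕ) : ℝ) := by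
    have : 0 < 2 / ((m + k : ℕ) : ℝ) := by positivity
    linarith
  have P3 : ∀ K ⊆ Bounded m, ∀ p q σ : ℝ, 2 < p → p - q < k * (q - 2) * (p - 2) / 2 →
      2 + 2 / ((m + k : ℕ) : ℝ) < q → q < 2 + 4 / ((m + k : ℕ) : ℝ) → 0 < σ →
      4 - ((m + k : ℕ) : ℝ) * (q - 2) < 2 * σ * q → Global K p → Holds K k σ q := by
    intro K hK p q σ hp hpq hq hq4 hσ0 hσ hG
    refine part1 hn K hK q _ σ hq hq4 ?_ hσ0 hσ (local_of_global hK (by linarith) hp hG)
    apply max_lt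
    · have : 0 < q - 2 := by linarith
      positivity
    · rw [div_lt_iff₀ (by linarith)]
      linarith
  refine ⟨?_, P3, fun K hK h q σ hq hσ => full hm hk hK h q σ hq hσ, ?_, ?_⟩
  · intro K hK q₀ σ hq₀ hσ
    have hσ0 : 0 < σ := lt_trans (by positivity) hσ
    have h1 : (∀ q, q₀ < q → Holds K k σ q) → ∀ q, q₀ < q → Constant K k q :=
      fun h q hq => const_of_holds hK (by linarith) (h q hq)
    have h2 : (∀ q, q₀ < q → Constant K k q) → ∀ q, q₀ < q → Local K q (k * (q - 2) / 2) :=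
      fun h q hq => local_of_const hK (by linarith) (h q hq)
    have h3 : (∀ q, q₀ < q → Local K q (k * (q - 2) / 2)) → ∀ q, q₀ < q → Holds K k σ q := by
      intro h
      refine all hn hK q₀ σ (by linarith) ?_
      intro q hq hq4
      have hL := (h ((q₀ + q) / 2) (by linarith)).mono hK (q := q) (by linarith) (by linarith)
      refine part1 hn K hK q _ σ (by linarith) hq4 ?_ hσ0 (reg hn (by linarith) hσ) hL
      have : (k : ℝ) * ((q₀ + q) / 2 - 2) < k * (q - 2) :=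
        mul_lt_mul_of_pos_left (by linarith) hk0
      linarith
    exact ⟨⟨h1, fun h => h3 (h2 h)⟩, ⟨fun h => h2 (h1 h), h3⟩⟩
  · intro q σ hq hσ
    have hσ0 : 0 < σ := lt_trans (by positivity) hσ
    refine all hn (Subset.refl _) (2 + 4 / ((m : ℝ) + 2 * k)) σ (by positivity) ?_ q hq
    intro q hq hq4
    have hmk : (0 : ℝ) < m + 2 * k := by positivity
    have h1 : 4 < (m + 2 * k : ℝ) * (q - 2) := by
      have := (div_lt_iff₀ hmk).1 (show 4 / ((m : ℝ) + 2 * k) < q - 2 by linarith)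
      linarith
    have hq2 : 2 < q := by
      by_contra hc
      nlinarith
    have hqc : 2 + 2 / ((m + k : ℕ) : ℝ) < q := by
      refine lt_trans ?_ hq
      rw [hnk]
      have : 2 / ((m : ℝ) + k) < 4 / (m + 2 * k) := by
        rw [div_lt_div_iff₀ (by positivity) (by positivity)]
        linarith
      linarith
    -- the exponent in the lower dimension
    set ε : ℝ := ((m + 2 * k : ℝ) * (q - 2) - 4) / (2 * m) with hε
    have hε0 : 0 < ε := div_pos (by linarith) (by positivity)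
    set p : ℝ := 2 + 4 / (m : ℝ) + ε with hp
    have hp2 : 2 < p := by
      have : 0 < 4 / (m : ℝ) := by positivity
      linarith
    have hG : Global (Bounded m) p := by
      obtain ⟨A₀, hA₀⟩ := Pool.Agent.X146.RP.ts_bdd m hm p (by
        have : 2 * ((m : ℝ) + 2) / m = 2 + 4 / m := by
          field_simp
          ring
        rw [this]
        linarith)
      refine ⟨A₀, fun g hg => ?_⟩
      have h1 := hA₀ _ (bf hg).ms (bf hg).bd
      refine le_trans (le_of_eq ?_) h1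
      apply lintegral_congr
      intro y
      congr 2
      unfold ext Pool.Agent.TH277.HT.EE
      apply setIntegral_congr_fun measurableSet_Icc
      intro ξ hξ
      simp only
      rw [indicator_of_mem hξ, mul_comm]
      congr 1
    refine P3 (Bounded m) (Subset.refl _) p q σ hp2 ?_ hqc hq4 hσ0 ?_ hG
    · have e1 : p - 2 = 4 / m + ε := by rw [hp]; ring
      have e2 : p - q = 4 / m + ε - (q - 2) := by rw [hp]; ring
      have e3 : (m : ℝ) * (4 / m) = 4 := by field_simp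
      have e4 : 2 * (m * ε) = (m + 2 * k : ℝ) * (q - 2) - 4 := by
        rw [hε]
        field_simp
      rw [e1, e2]
      have h5 : 0 < k * (q - 2) * (m * ε) := by
        have : 0 < q - 2 := by linarith
        positivity
      have h6 : (m : ℝ) * (4 / m + ε - (q - 2)) < m * (k * (q - 2) * (4 / m + ε) / 2) := by
        have e5 : (m : ℝ) * (4 / m + ε - (q - 2)) = 4 + m * ε - m * (q - 2) := by
          rw [mul_sub, mul_add, e3]
        have e6 : (m : ℝ) * (k * (q - 2) * (4 / m + ε) / 2) =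
            k * (q - 2) / 2 * (m * (4 / m) + m * ε) := by ring
        rw [e3] at e6
        rw [e5, e6]
        nlinarith
      exact lt_of_mul_lt_mul_left h6 hm0.le
    · rw [hnk]
      have h2 : (k : ℝ) < σ * (m + 2 * k + 2) := (div_lt_iff₀ (by positivity)).1 hσ
      -- at the endpoint both sides are compared
      have h3 : (m + 2 * k : ℝ) * (4 - (m + k) * (q - 2)) < 4 * k := by nlinarith
      have h4 : 4 * (m + 2 * k + 2 : ℝ) < 2 * ((m + 2 * k) * q) := by nlinarith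
      have h5 : σ * (4 * (m + 2 * k + 2 : ℝ)) < σ * (2 * ((m + 2 * k) * q)) :=
        mul_lt_mul_of_pos_left h4 hσ0
      have h6 : (m + 2 * k : ℝ) * (4 - (m + k) * (q - 2)) < (m + 2 * k) * (2 * σ * q) := by
        nlinarith
      exact lt_of_mul_lt_mul_left h6 hmk.le
  · intro hm2 q σ hq hσ
    exact full hm hk (tensors_bdd m) (fun p hp => tensors_global m hm2 p hp) q σ hq hσ

end Pool.Agent.Results.MP_b7167f_an.SeveralRoughVariables
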